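import Mathlib
import Pool.Agent.Helper83.VF.Res

/-!
# The Fermat hypersurfaces

The Fermat hypersurface of degree `m` in `P^(r-1)`, `x_1^m + ... + x_r^m = 0`. Its closed points
are its points with coordinates in `k`. A morphism to it from the smooth projective curve with
function field `K` is the same as a point with coordinates in `K`; its value at a place `v` of `K`
is obtained by scaling the coordinates so that all of them are regular at `v` and not all of them
vanish at `v`, and evaluating them at `v`.
-/

namespace VF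

open VC VP Function

universe u

/-- The points with coordinates in the field `K` of the Fermat hypersurface
`x_1^m + ... + x_r^m = 0` in `P^(r-1)`. -/
def FermatPt (K : Type u) [Field K] (r m : ℕ) : Type u :=
  {x : Projectivization K (Fin r → K) // ∑ i, x.rep i ^ m = 0}

/-- The point `p` of the projective space over `k` is the value of the point `x` with coordinates
in `K` at the place `v` of `K`: there are homogeneous coordinates `a` of `x` and `b` of `p` such
that, for all `i`, the function `a i` has the value `b i` at `v`. -/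
def IsValue {k K : Type u} [Field k] [Field K] [Algebra k K] {r : ℕ} (v : Place k K)
    (x : Projectivization K (Fin r → K)) (p : Projectivization k (Fin r → k)) : Prop :=
  ∃ (a : Fin r → K) (ha : a ≠ 0) (b : Fin r → k) (hb : b ≠ 0),
    x = Projectivization.mk K a ha ∧ p = Projectivization.mk k b hb ∧
    ∀ i, a i - algebraMap k K (b i) ∈ v.ring.nonunits

section points

variable {K : Type u} [Field K] {r m : ℕ}

lemma eqn_iff (a : Fin r → K) (ha : a ≠ 0) :
    ∑ i, (Projectivization.mk K a ha).rep i ^ m = 0 ↔ ∑ i, a i ^ m = 0 := by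
  obtain ⟨c, hc⟩ := Projectivization.exists_smul_eq_mk_rep K a ha
  rw [← hc]
  have e : ∑ i, (c • a) i ^ m = (c : K) ^ m * ∑ i, a i ^ m := by
    rw [Finset.mul_sum]
    apply Finset.sum_congr rfl
    intro i _
    rw [Pi.smul_apply, Units.smul_def, smul_eq_mul, mul_pow]
  rw [e, mul_eq_zero]
  constructor
  · rintro (h | h)
    · exact absurd h (pow_ne_zero _ c.ne_zero)
    · exact h
  · exact Or.inr

/-- The point with given homogeneous coordinates. -/
def pt (a : Fin r → K) (ha : a ≠ 0) (h : ∑ i, a i ^ m = 0) : FermatPt K r m :=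
  ⟨Projectivization.mk K a ha, (eqn_iff a ha).mpr h⟩

lemma exists_pt (x : FermatPt K r m) : ∃ a ha h, x = pt a ha h := by
  refine ⟨x.1.rep, x.1.rep_nonzero, x.2, ?_⟩
  apply Subtype.ext
  exact x.1.mk_rep.symm

lemma pt_eq_iff {a b : Fin r → K} {ha : a ≠ 0} {hb : b ≠ 0} {h : ∑ i, a i ^ m = 0}
    {h' : ∑ i, b i ^ m = 0} : pt a ha h = pt b hb h' ↔ ∃ c : K, ∀ i, c * b i = a i := by
  have e : pt a ha h = pt b hb h' ↔
      Projectivization.mk K a ha = Projectivization.mk K b hb :=
    ⟨fun hh => congrArg Subtype.val hh, fun hh => Subtype.ext hh⟩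
  rw [e, Projectivization.mk_eq_mk_iff']
  constructor
  · rintro ⟨c, hc⟩
    exact ⟨c, fun i => by rw [← hc]; rfl⟩
  · rintro ⟨c, hc⟩
    exact ⟨c, funext hc⟩

end points

section value

variable {k K : Type u} [Field k] [Field K] [Algebra k K] {r m : ℕ} {v : Place k K}

lemma exists_max (R : ValuationSubring K) (a : Fin r → K) (ha : a ≠ 0) :
    ∃ j, a j ≠ 0 ∧ ∀ i, a i * (a j)⁻¹ ∈ R := by
  classical
  have key : ∀ s : Finset (Fin r), (∃ j ∈ s, a j ≠ 0) → ∃ j ∈ s, a j ≠ 0 ∧
      ∀ i ∈ s, a i * (a j)⁻¹ ∈ R := by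
    intro s
    induction s using Finset.induction_on with
    | empty => rintro ⟨j, hj, -⟩; exact absurd hj (Finset.notMem_empty _)
    | insert l s hl ih =>
      intro hex
      by_cases hs : ∃ j ∈ s, a j ≠ 0
      · obtain ⟨j, hj, hj0, hj'⟩ := ih hs
        rcases R.mem_or_inv_mem (a l * (a j)⁻¹) with h | h
        · refine ⟨j, Finset.mem_insert_of_mem hj, hj0, ?_⟩
          intro i hi
          rcases Finset.mem_insert.mp hi with rfl | hi
          · exact h
          · exact hj' i hi
        · by_cases hl0 : a l = 0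
          · refine ⟨j, Finset.mem_insert_of_mem hj, hj0, ?_⟩
            intro i hi
            rcases Finset.mem_insert.mp hi with rfl | hi
            · rw [hl0, zero_mul]; exact R.zero_mem
            · exact hj' i hi
          · refine ⟨l, Finset.mem_insert_self _ _, hl0, ?_⟩
            intro i hi
            rcases Finset.mem_insert.mp hi with rfl | hi
            · rw [mul_inv_cancel₀ hl0]; exact R.one_mem
            · have e : a i * (a l)⁻¹ = a i * (a j)⁻¹ * (a l * (a j)⁻¹)⁻¹ := by
                rw [mul_inv, inv_inv]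
                field_simp
              rw [e]
              exact R.mul_mem _ _ (hj' i hi) h
      · push Not at hs
        obtain ⟨j, hj, hj0⟩ := hex
        rcases Finset.mem_insert.mp hj with rfl | hj'
        · refine ⟨j, Finset.mem_insert_self _ _, hj0, ?_⟩
          intro i hi
          rcases Finset.mem_insert.mp hi with rfl | hi
          · rw [mul_inv_cancel₀ hj0]; exact R.one_mem
          · rw [hs i hi, zero_mul]; exact R.zero_mem
        · exact absurd (hs j hj') hj0
  obtain ⟨j, hj⟩ := Function.ne_iff.mp ha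
  obtain ⟨i, -, hi, hi'⟩ := key Finset.univ ⟨j, Finset.mem_univ j, hj⟩
  exact ⟨i, hi, fun l => hi' l (Finset.mem_univ l)⟩

lemma value_eqn {x : Projectivization K (Fin r → K)} {p : Projectivization k (Fin r → k)}
    (h : IsValue v x p) (hx : ∑ i, x.rep i ^ m = 0) : ∑ i, p.rep i ^ m = 0 := by
  obtain ⟨a, ha, b, hb, rfl, rfl, hv⟩ := h
  rw [eqn_iff] at hx ⊢
  have h1 : IsRes v (∑ i, a i ^ m) (∑ i, b i ^ m) :=
    IsRes.sum _ (fun i _ => (show IsRes v (a i) (b i) from hv i).pow m)
  rw [hx] at h1
  exact h1.unique isRes_zero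

lemma value_unique {x : Projectivization K (Fin r → K)} {p q : Projectivization k (Fin r → k)}
    (h : IsValue v x p) (h' : IsValue v x q) : p = q := by
  obtain ⟨a, ha, b, hb, rfl, rfl, hv⟩ := h
  obtain ⟨a', ha', b', hb', hx, rfl, hv'⟩ := h'
  obtain ⟨c, hc⟩ := (Projectivization.mk_eq_mk_iff' K a a' ha ha').mp hx
  have hc' : ∀ i, c * a' i = a i := fun i => by rw [← hc]; rfl
  -- `c` is regular
  obtain ⟨j, hj⟩ := Function.ne_iff.mp hb'
  have hj1 := (show IsRes v (a' j) (b' j) from hv' j).inv_mem hj
  have hcm : c ∈ v.ring := by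
    have : c = a j * (a' j)⁻¹ := by rw [← hc' j, mul_assoc, mul_inv_cancel₀ hj1.1, mul_one]
    rw [this]
    exact v.ring.mul_mem _ _ (show IsRes v (a j) (b j) from hv j).mem hj1.2
  obtain ⟨i, hi⟩ := Function.ne_iff.mp hb
  have hi1 := (show IsRes v (a i) (b i) from hv i).inv_mem hi
  have hi0 : a' i ≠ 0 := by
    intro h0
    apply hi1.1
    rw [← hc' i, h0, mul_zero]
  -- the inverse of `c` is regular
  have hc0 : c ≠ 0 := by
    rintro rfl
    apply hi1.1
    rw [← hc' i, zero_mul]
  have hci : c⁻¹ ∈ v.ring := by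
    have : c⁻¹ = a' i * (a i)⁻¹ := by
      rw [← hc' i]; field_simp
    rw [this]
    exact v.ring.mul_mem _ _ (show IsRes v (a' i) (b' i) from hv' i).mem hi1.2
  have key : ∀ l s, b l * b' s = b s * b' l := by
    intro l s
    have h1 : IsRes v (a l * a' s) (b l * b' s) :=
      (show IsRes v (a l) (b l) from hv l).mul (show IsRes v (a' s) (b' s) from hv' s)
    have h2 : IsRes v (a s * a' l) (b s * b' l) :=
      (show IsRes v (a s) (b s) from hv s).mul (show IsRes v (a' l) (b' l) from hv' l)
    have e : a l * a' s = a s * a' l := by rw [← hc' l, ← hc' s]; ring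
    rw [e] at h1
    exact h1.unique h2
  rw [Projectivization.mk_eq_mk_iff']
  refine ⟨b j * (b' j)⁻¹, funext fun l => ?_⟩
  rw [Pi.smul_apply, smul_eq_mul]
  have := key l j
  have hj' : b' j ≠ 0 := hj
  field_simp
  linear_combination -this

variable [IsAlgClosed k] [CharZero k]

lemma exists_isValue (hK : IsFunctionField k K) (v : Place k K)
    (x : Projectivization K (Fin r → K)) : ∃ p, IsValue v x p := by
  induction x with
  | h a ha =>
    obtain ⟨j, hj, hj'⟩ := exists_max v.ring a ha
    choose b hb using fun i => exists_res hK (hj' i)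
    have hbj : b j = 1 := by
      have h1 := hb j
      rw [mul_inv_cancel₀ hj] at h1
      exact h1.unique isRes_one
    have hb0 : b ≠ 0 := by
      intro h
      rw [h] at hbj
      exact zero_ne_one hbj
    have ha' : (fun i => a i * (a j)⁻¹) ≠ 0 := by
      intro h
      have := congrFun h j
      simp only [Pi.zero_apply] at this
      rw [mul_inv_cancel₀ hj] at this
      exact one_ne_zero this
    refine ⟨Projectivization.mk k b hb0, _, ha', b, hb0, ?_, rfl, hb⟩
    rw [Projectivization.mk_eq_mk_iff']
    refine ⟨a j, funext fun i => ?_⟩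
    rw [Pi.smul_apply, smul_eq_mul, mul_comm, mul_assoc, inv_mul_cancel₀ hj, mul_one]

/-- A morphism from a curve to a Fermat hypersurface has a value at every point. -/
lemma exists_value (hK : IsFunctionField k K) (x : FermatPt K r m) (v : Place k K) :
    ∃ p : FermatPt k r m, IsValue v x.1 p.1 := by
  obtain ⟨p, hp⟩ := exists_isValue hK v x.1
  exact ⟨⟨p, value_eqn hp x.2⟩, hp⟩

end value

/-- The Fermat hypersurface `x_1^m + ... + x_r^m = 0` in `P^(r-1)` over the algebraically closed
field `k` of characteristic zero. For `r = 4` this is the Fermat surface of degree `m`. -/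
noncomputable abbrev fermat (k : Type u) [Field k] [IsAlgClosed k] [CharZero k] (r m : ℕ) :
    Variety k where
  Pt := FermatPt k r m
  Mor K _ _ := FermatPt K r m
  eval hK x v := (exists_value hK x v).choose

section eval

variable {k K : Type u} [Field k] [IsAlgClosed k] [CharZero k] [Field K] [Algebra k K] {r m : ℕ}

lemma eval_eq (hK : IsFunctionField k K) (v : Place k K) {a : Fin r → K} {b : Fin r → k}
    (ha : a ≠ 0) (h : ∑ i, a i ^ m = 0) (hb : b ≠ 0) (h' : ∑ i, b i ^ m = 0)
    (hv : ∀ i, IsRes v (a i) (b i)) :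
    (fermat k r m).eval hK (pt a ha h) v = pt b hb h' := by
  apply Subtype.ext
  exact value_unique (exists_value hK (pt a ha h) v).choose_spec ⟨a, ha, b, hb, rfl, rfl, hv⟩

omit [IsAlgClosed k] [CharZero k] in
lemma res_ne_zero {v : Place k K} {a : Fin r → K} {b : Fin r → k}
    (hb : b ≠ 0) (hv : ∀ i, IsRes v (a i) (b i)) : a ≠ 0 := by
  rintro rfl
  apply hb
  funext i
  exact ((hv i).unique isRes_zero)

/-- Coordinates adapted to a place. -/
lemma exists_coord (hK : IsFunctionField k K) (v : Place k K) (x : FermatPt K r m) :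
    ∃ (a : Fin r → K) (ha : a ≠ 0) (h : ∑ i, a i ^ m = 0) (b : Fin r → k) (hb : b ≠ 0)
      (h' : ∑ i, b i ^ m = 0), x = pt a ha h ∧ (fermat k r m).eval hK x v = pt b hb h' ∧
      ∀ i, IsRes v (a i) (b i) := by
  obtain ⟨p, hp⟩ := exists_value hK x v
  obtain ⟨a, ha, b, hb, h1, h2, hv⟩ := id hp
  have h3 : ∑ i, a i ^ m = 0 := by
    have := x.2
    rwa [h1, eqn_iff] at this
  have h4 : ∑ i, b i ^ m = 0 := by
    have := p.2
    rwa [h2, eqn_iff] at this
  have h5 : x = pt a ha h3 := Subtype.ext h1
  refine ⟨a, ha, h3, b, hb, h4, h5, ?_, hv⟩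
  rw [h5]
  exact eval_eq hK v ha h3 hb h4 hv

end eval

end VF
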