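import Mathlib
import Pool.Agent.Helper9.NS
import Pool.Agent.Helper26.VC.Chow
import Pool.Agent.Helper70.VP.Pencil
import Pool.Agent.Helper83.VF.Defs

/-!
# Functions on the points which vanish on cycles rationally equivalent to zero
-/

set_option linter.unusedSectionVars false

namespace VF

open VC VP Function

universe u

section kills

variable {k : Type u} [Field k]

/-- The function `ψ` on the points of `X`, extended linearly to cycles, vanishes on the cycles
rationally equivalent to zero. -/
def Kills (X : Variety k) (ψ : X.Pt → k) : Prop :=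
  ∀ z ∈ X.Rat, Finsupp.linearCombination ℤ ψ z = 0

variable {X Y : Variety k} {ψ φ : X.Pt → k}

lemma Kills.add (h : Kills X ψ) (h' : Kills X φ) : Kills X (fun p => ψ p + φ p) := by
  intro z hz
  have e : Finsupp.linearCombination ℤ (fun p => ψ p + φ p) =
      Finsupp.linearCombination ℤ ψ + Finsupp.linearCombination ℤ φ := by
    apply Finsupp.lhom_ext
    intro p n
    simp [Finsupp.linearCombination_single]
  rw [e, LinearMap.add_apply, h z hz, h' z hz, add_zero]

lemma Kills.smul (c : k) (h : Kills X ψ) : Kills X (fun p => c * ψ p) := by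
  intro z hz
  have e : ∀ z, Finsupp.linearCombination ℤ (fun p => c * ψ p) z =
      c * Finsupp.linearCombination ℤ ψ z := by
    intro z
    induction z using Finsupp.induction_linear with
    | zero => simp
    | add a b ha hb => rw [map_add, map_add, ha, hb, mul_add]
    | single p n =>
      rw [Finsupp.linearCombination_single, Finsupp.linearCombination_single, mul_smul_comm]
  rw [e, h z hz, mul_zero]

lemma Kills.zero : Kills X (fun _ => (0 : k)) := by
  intro z hz
  clear hz
  induction z using Finsupp.induction_linear with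
  | zero => simp
  | add a b ha hb => rw [map_add, ha, hb, add_zero]
  | single p n => rw [Finsupp.linearCombination_single, smul_zero]

lemma Kills.sum {ι : Type*} (s : Finset ι) {f : ι → X.Pt → k} (h : ∀ i ∈ s, Kills X (f i)) :
    Kills X (fun p => ∑ i ∈ s, f i p) := by
  classical
  induction s using Finset.induction_on with
  | empty => simpa using Kills.zero
  | insert a s ha ih =>
    simp only [Finset.sum_insert ha]
    exact (h a (Finset.mem_insert_self _ _)).add
      (ih (fun i hi => h i (Finset.mem_insert_of_mem hi)))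

variable [IsAlgClosed k] [CharZero k]

lemma Kills.comp {ψ : Y.Pt → k} {r : X.Pt → Y.Pt} (h : Kills Y ψ) (hr : Induced X Y r) :
    Kills X (fun p => ψ (r p)) := by
  intro z hz
  have := h _ (map_rat X Y r hr hz)
  rw [Finsupp.linearCombination_mapDomain] at this
  exact this

lemma Induced.prodMap {X' Y' : Variety k} {f : X.Pt → Y.Pt} {g : X'.Pt → Y'.Pt}
    (hf : Induced X Y f) (hg : Induced X' Y' g) :
    Induced (X.prod X') (Y.prod Y') (Prod.map f g) := by
  intro K _ _ hK c
  obtain ⟨a, ha⟩ := hf K hK c.1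
  obtain ⟨b, hb⟩ := hg K hK c.2
  exact ⟨(a, b), fun v => Prod.ext (ha v) (hb v)⟩

omit [IsAlgClosed k] [CharZero k] in
lemma Induced.swap : Induced (X.prod Y) (Y.prod X) Prod.swap := by
  intro K _ _ hK c
  exact ⟨(c.2, c.1), fun v => rfl⟩

omit [IsAlgClosed k] [CharZero k] in
lemma Induced.id : Induced X X (fun p => p) := by
  intro K _ _ hK c
  exact ⟨c, fun v => rfl⟩

lemma Kills.gen (h : Kills X ψ) {K : Type u} [Field K] [Algebra k K] (hK : IsFunctionField k K)
    (c : X.Mor K) {f : K} (hf : f ≠ 0) :
    ∑ v ∈ (finite_support_ord hK hf).toFinset, (ord v.ring f : k) * ψ (X.eval hK c v) = 0 := by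
  have := h _ (gen_mem X hK c hf)
  rw [map_sum] at this
  rw [← this]
  apply Finset.sum_congr rfl
  intro v _
  rw [Finsupp.linearCombination_single, zsmul_eq_mul]

lemma sub_mem_of_div {K : Type u} [Field K] [Algebra k K] {v : Place k K} {τ : K} {a b : k}
    (hb : τ - algebraMap k K b ≠ 0)
    (h : (τ - algebraMap k K a) / (τ - algebraMap k K b) ∈ v.ring.nonunits) :
    IsRes v τ a := by
  set f := (τ - algebraMap k K a) / (τ - algebraMap k K b) with hf
  have h1 : IsRes v (f - 1) (-1 : k) := by
    have := (isRes_zero_iff.mpr h).sub (isRes_one (v := v))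
    rwa [zero_sub] at this
  have h2 := h1.inv_mem (neg_ne_zero.mpr one_ne_zero)
  have e : (f - 1) * (τ - algebraMap k K b) = algebraMap k K (b - a) := by
    rw [hf, map_sub, sub_mul, div_mul_cancel₀ _ hb]; ring
  have h3 : τ - algebraMap k K b ∈ v.ring := by
    have : τ - algebraMap k K b = (f - 1)⁻¹ * algebraMap k K (b - a) := by
      rw [← e, ← mul_assoc, inv_mul_cancel₀ h2.1, one_mul]
    rw [this]
    exact v.ring.mul_mem _ _ h2.2 (v.algebraMap_mem _)
  have h4 := nonunits_mul h3 h
  unfold IsRes
  convert h4 using 1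
  rw [hf, mul_comm, div_mul_cancel₀ _ hb]

/-- If the function takes the value `A` over `τ = a` and the value `B` over `τ = b`, then
`A = B`. -/
theorem path (h : Kills X ψ) {K : Type u} [Field K] [Algebra k K] (hK : IsFunctionField k K)
    (c : X.Mor K) {τ : K} (hτ : Transcendental k τ) {a b : k} (hab : a ≠ b) {A B : k}
    (hA : ∀ v, IsRes v τ a → ψ (X.eval hK c v) = A)
    (hB : ∀ v, IsRes v τ b → ψ (X.eval hK c v) = B) : A = B := by
  classical
  have hne : ∀ d : k, τ - algebraMap k K d ≠ 0 := by
    intro d h0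
    apply hτ
    rw [sub_eq_zero.mp h0]
    exact isAlgebraic_algebraMap d
  set f : K := (τ - algebraMap k K a) / (τ - algebraMap k K b) with hf
  have hf0 : f ≠ 0 := div_ne_zero (hne a) (hne b)
  have h1 := h.gen hK c hf0
  have h2 := degree_zero hK hf0
  have h2' : ∑ v ∈ (finite_support_ord hK hf0).toFinset, (ord v.ring f : k) = 0 := by
    exact_mod_cast congrArg (Int.cast : ℤ → k) h2
  have hpos : ∀ v : Place k K, 0 < ord v.ring f → IsRes v τ a := by
    intro v hv
    rw [ord_pos_iff hK v hf0] at hv
    exact sub_mem_of_div (hne b) hv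
  have hneg : ∀ v : Place k K, ord v.ring f < 0 → IsRes v τ b := by
    intro v hv
    have hv' : f⁻¹ ∈ v.ring.nonunits := by
      rw [← ord_pos_iff hK v (inv_ne_zero hf0), ord_inv hK v hf0]
      omega
    rw [hf, inv_div] at hv'
    exact sub_mem_of_div (hne a) hv'
  have h3 : ∑ v ∈ (finite_support_ord hK hf0).toFinset,
      (ord v.ring f : k) * (ψ (X.eval hK c v) - B) = 0 := by
    simp only [mul_sub, Finset.sum_sub_distrib, ← Finset.sum_mul]
    rw [h1, h2', zero_mul, sub_zero]
  have h4 : ∀ v ∈ (finite_support_ord hK hf0).toFinset,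
      (ord v.ring f : k) * (ψ (X.eval hK c v) - B) =
      ((max (ord v.ring f) 0 : ℤ) : k) * (A - B) := by
    intro v _
    rcases lt_trichotomy (ord v.ring f) 0 with hlt | heq | hgt
    · rw [hB v (hneg v hlt), max_eq_right hlt.le]; simp
    · rw [heq]; simp
    · rw [hA v (hpos v hgt), max_eq_left hgt.le]
  rw [Finset.sum_congr rfl h4, ← Finset.sum_mul, mul_eq_zero] at h3
  rcases h3 with h3 | h3
  · exfalso
    have h5 : ∑ v ∈ (finite_support_ord hK hf0).toFinset, max (ord v.ring f) 0 = 0 := by
      exact_mod_cast h3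
    rw [Finset.sum_eq_zero_iff_of_nonneg (fun v _ => le_max_right _ _)] at h5
    have hτa : Transcendental k (τ - algebraMap k K a) := by
      intro h6
      apply hτ
      have := h6.add (isAlgebraic_algebraMap (A := K) a)
      rwa [sub_add_cancel] at this
    obtain ⟨v, hv⟩ := exists_place hK hτa
    have hres : IsRes v τ a := hv
    have hub : IsRes v (τ - algebraMap k K b) (a - b) := hres.sub (isRes_const b)
    have hui := hub.inv_mem (sub_ne_zero.mpr hab)
    have h7 : f ∈ v.ring.nonunits := by
      rw [hf, div_eq_mul_inv, mul_comm]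
      exact nonunits_mul hui.2 hv
    have h8 := (ord_pos_iff hK v hf0).mpr h7
    have h9 := h5 v (by
      rw [Set.Finite.mem_toFinset, Set.mem_ofPred_eq]
      exact h8.ne')
    rw [max_eq_left h8.le] at h9
    exact h8.ne' h9
  · exact sub_eq_zero.mp h3

end kills

/-! ### Monomial maps -/

section mono

variable {k : Type u} [Field k] {r s m : ℕ}

/-- The coordinates `c_i x_(σ i)` of the image satisfy the equation whenever the `x_j` do. -/
def IsMono (m : ℕ) (σ : Fin r → Fin s) (c : Fin r → k) : Prop :=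
  ∀ j, ∑ i with σ i = j, c i ^ m = 1

variable {σ : Fin r → Fin s} {c : Fin r → k} {K : Type u} [Field K] [Algebra k K]

lemma IsMono.eqn (h : IsMono m σ c) {a : Fin s → K} (ha : ∑ j, a j ^ m = 0) :
    ∑ i, (algebraMap k K (c i) * a (σ i)) ^ m = 0 := by
  rw [← Finset.sum_fiberwise_of_maps_to (s := Finset.univ) (t := Finset.univ) (g := σ)
    (fun _ _ => Finset.mem_univ _)]
  rw [← ha]
  apply Finset.sum_congr rfl
  intro j _
  have e : ∀ i ∈ Finset.univ.filter (fun i => σ i = j),
      (algebraMap k K (c i) * a (σ i)) ^ m = algebraMap k K (c i ^ m) * a j ^ m := by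
    intro i hi
    rw [(Finset.mem_filter.mp hi).2, mul_pow, map_pow]
  rw [Finset.sum_congr rfl e, ← Finset.sum_mul, ← map_sum, h j, map_one, one_mul]

lemma IsMono.ne_zero [NeZero m] (h : IsMono m σ c) {a : Fin s → K} (ha : a ≠ 0) :
    (fun i => algebraMap k K (c i) * a (σ i)) ≠ 0 := by
  obtain ⟨j, hj⟩ := Function.ne_iff.mp ha
  have h1 := h j
  obtain ⟨i, hi, hi'⟩ := Finset.exists_ne_zero_of_sum_ne_zero (by rw [h1]; exact one_ne_zero)
  intro h0
  have h2 := congrFun h0 i
  simp only [Pi.zero_apply, mul_eq_zero] at h2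
  rw [(Finset.mem_filter.mp hi).2] at h2
  rcases h2 with h2 | h2
  · apply hi'
    rw [(_root_.map_eq_zero _).mp h2, zero_pow (NeZero.ne m)]
  · exact hj h2

/-- The map given by a monomial matrix. -/
noncomputable def mono [NeZero m] (h : IsMono m σ c) (x : FermatPt K s m) : FermatPt K r m :=
  pt (fun i => algebraMap k K (c i) * x.1.rep (σ i)) (h.ne_zero x.1.rep_nonzero) (h.eqn x.2)

lemma mono_pt [NeZero m] (h : IsMono m σ c) {a : Fin s → K} (ha : a ≠ 0)
    (h' : ∑ j, a j ^ m = 0) :
    mono h (pt a ha h') = pt (fun i => algebraMap k K (c i) * a (σ i)) (h.ne_zero ha)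
      (h.eqn h') := by
  obtain ⟨t, ht⟩ := Projectivization.exists_smul_eq_mk_rep K a ha
  unfold mono
  rw [pt_eq_iff]
  refine ⟨t, fun i => ?_⟩
  have : (pt a ha h' : FermatPt K s m).1.rep = t • a := ht.symm
  rw [this, Pi.smul_apply, Units.smul_def, smul_eq_mul]
  ring

lemma mono_pt' [NeZero m] (h : IsMono m σ c) {a : Fin s → k} (ha : a ≠ 0)
    (h' : ∑ j, a j ^ m = 0) :
    mono h (pt a ha h') = pt (fun i => c i * a (σ i)) (h.ne_zero ha) (h.eqn h') :=
  mono_pt h ha h'

variable [IsAlgClosed k] [CharZero k]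

lemma induced_mono [NeZero m] (h : IsMono m σ c) :
    Induced (fermat k s m) (fermat k r m) (mono h) := by
  intro K _ _ hK x
  refine ⟨mono h x, fun v => ?_⟩
  obtain ⟨a, ha, h1, b, hb, h2, rfl, h3, hv⟩ := exists_coord hK v x
  rw [h3, mono_pt, mono_pt']
  apply eval_eq
  intro i
  exact (isRes_const (c i)).mul (hv (σ i))

lemma fermat_const (K : Type u) [Field K] [Algebra k K] (hK : IsFunctionField k K)
    (p : (fermat k r m).Pt) : ∃ c : (fermat k r m).Mor K, ∀ v, (fermat k r m).eval hK c v = p := by
  obtain ⟨b, hb, h, rfl⟩ := exists_pt p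
  have h1 : (fun i => algebraMap k K (b i)) ≠ 0 := by
    obtain ⟨j, hj⟩ := Function.ne_iff.mp hb
    intro h0
    exact hj ((_root_.map_eq_zero _).mp (congrFun h0 j))
  have h2 : ∑ i, (algebraMap k K (b i)) ^ m = 0 := by
    simp only [← map_pow, ← map_sum]
    rw [h, map_zero]
  exact ⟨pt _ h1 h2, fun v => eval_eq hK v h1 h2 hb h (fun i => isRes_const _)⟩

end mono

end VF
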