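import Mathlib
import Pool.Agent.Helper9.NS
import Pool.Agent.Helper83.VF.Fields
import Pool.Agent.Helper83.VF.Kill

/-!
# Zero-cycles on products of Fermat curves
-/

set_option linter.unusedSectionVars false

namespace VF

open VC VP Function Polynomial

universe u

variable {k : Type u} [Field k] {m : ℕ} [NeZero m]

/-- All `m`-th roots of unity are values of the injective character `E`. -/
def IsFull (E : AddChar (ZMod m) k) : Prop :=
  (∀ c, E c = 1 → c = 0) ∧ ∀ z : k, z ^ m = 1 → ∃ c, E c = z

lemma char_pow (E : AddChar (ZMod m) k) (c : ZMod m) : E c ^ m = 1 := by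
  rw [← AddChar.map_nsmul_eq_pow]
  simp

lemma char_ne_zero (E : AddChar (ZMod m) k) (c : ZMod m) : E c ≠ 0 := by
  intro h
  have := char_pow E c
  rw [h, zero_pow (NeZero.ne m)] at this
  exact zero_ne_one this

lemma isMono_char (E : AddChar (ZMod m) k) {r : ℕ} (x : Fin r → ZMod m) :
    IsMono m (id : Fin r → Fin r) (fun i => E (x i)) := by
  intro j
  simp only [id, Finset.filter_eq', Finset.mem_univ, if_true, Finset.sum_singleton]
  exact char_pow E _

/-- The action of roots of unity on the coordinates. -/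
noncomputable def tw (E : AddChar (ZMod m) k) {r : ℕ} (x : Fin r → ZMod m) :
    FermatPt k r m → FermatPt k r m := mono (isMono_char E x)

variable {E : AddChar (ZMod m) k} {r : ℕ}

lemma tw_pt {x : Fin r → ZMod m} {a b : Fin r → k} {ha : a ≠ 0} {hb : b ≠ 0}
    {h : ∑ i, a i ^ m = 0} {h' : ∑ i, b i ^ m = 0} (c : k)
    (hc : ∀ i, b i = c * (E (x i) * a i)) : pt b hb h' = tw E x (pt a ha h) := by
  unfold tw
  rw [mono_pt', pt_eq_iff]
  exact ⟨c, fun i => (hc i).symm⟩

/-- The function `φ` is an eigenfunction for the roots of unity, with character `χ`. -/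
def Equi (E : AddChar (ZMod m) k) (χ : Fin r → ZMod m) (φ : FermatPt k r m → k) : Prop :=
  ∀ x p, φ (tw E x p) = E (∑ i, χ i * x i) * φ p

/-- An eigenfunction vanishes at the points with a zero coordinate on which the group acts
nontrivially. -/
lemma Equi.zero_coord (hE : IsFull E) {χ : Fin r → ZMod m} {φ : FermatPt k r m → k}
    (h : Equi E χ φ) {j : Fin r} (hj : χ j ≠ 0) {a : Fin r → k} (ha : a ≠ 0)
    (h' : ∑ i, a i ^ m = 0) (haj : a j = 0) : φ (pt a ha h') = 0 := by
  have h1 : pt a ha h' = tw E (Pi.single j 1) (pt a ha h') := by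
    apply tw_pt 1
    intro i
    by_cases hi : i = j
    · subst hi; rw [haj]; simp
    · rw [Pi.single_eq_of_ne hi]; simp
  have h2 := h (Pi.single j 1) (pt a ha h')
  rw [← h1] at h2
  have h3 : ∑ i, χ i * (Pi.single j 1 : Fin r → ZMod m) i = χ j := by
    rw [Finset.sum_eq_single j]
    · simp
    · intro i _ hi
      rw [Pi.single_eq_of_ne hi, mul_zero]
    · intro h; exact absurd (Finset.mem_univ j) h
  rw [h3] at h2
  by_contra h4
  have h5 : E (χ j) = 1 := by
    have h6 : (E (χ j) - 1) * φ (pt a ha h') = 0 := by rw [sub_mul, one_mul, ← h2, sub_self]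
    rcases mul_eq_zero.mp h6 with h6 | h6
    · exact sub_eq_zero.mp h6
    · exact absurd h6 h4
  exact hj (hE.1 _ h5)

/-- Vectors with proportional `m`-th powers. -/
lemma exists_tw [IsAlgClosed k] (hE : IsFull E) {a b : Fin r → k} {l : k} (hl : l ≠ 0)
    (h : ∀ i, b i ^ m = l * a i ^ m) :
    ∃ (c : k) (x : Fin r → ZMod m), c ≠ 0 ∧ ∀ i, b i = c * (E (x i) * a i) := by
  obtain ⟨c, hc⟩ := IsAlgClosed.exists_pow_nat_eq l (Nat.pos_of_ne_zero (NeZero.ne m))
  have hc0 : c ≠ 0 := by
    rintro rfl
    rw [zero_pow (NeZero.ne m)] at hc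
    exact hl hc.symm
  have key : ∀ i, ∃ x : ZMod m, b i = c * (E x * a i) := by
    intro i
    by_cases hi : a i = 0
    · refine ⟨0, ?_⟩
      have := h i
      rw [hi, zero_pow (NeZero.ne m), mul_zero] at this
      rw [hi, mul_zero, mul_zero]
      exact (pow_eq_zero_iff (NeZero.ne m)).mp this
    · obtain ⟨x, hx⟩ := hE.2 (b i / (c * a i)) (by
        rw [div_pow, mul_pow, h i, hc]
        exact div_self (mul_ne_zero hl (pow_ne_zero _ hi)))
      refine ⟨x, ?_⟩
      rw [hx]
      field_simp
  choose x hx using key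
  exact ⟨c, x, hc0, hx⟩

/-- Vectors with equal `m`-th powers. -/
lemma exists_tw_one (hE : IsFull E) {a b : Fin r → k}
    (h : ∀ i, b i ^ m = a i ^ m) :
    ∃ x : Fin r → ZMod m, (∀ i, b i = E (x i) * a i) ∧ ∀ i, b i = a i → x i = 0 := by
  have key : ∀ i, ∃ x : ZMod m, b i = E x * a i ∧ (b i = a i → x = 0) := by
    intro i
    by_cases hab : b i = a i
    · exact ⟨0, by rw [hab]; simp, fun _ => rfl⟩
    · by_cases hi : a i = 0
      · exfalso
        apply hab
        have := h i
        rw [hi, zero_pow (NeZero.ne m)] at this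
        rw [hi]
        exact (pow_eq_zero_iff (NeZero.ne m)).mp this
      · obtain ⟨x, hx⟩ := hE.2 (b i / a i) (by
          rw [div_pow, h i]
          exact div_self (pow_ne_zero _ hi))
        refine ⟨x, ?_, fun h => absurd h hab⟩
        rw [hx, div_mul_cancel₀ _ hi]
  choose x hx using key
  exact ⟨x, fun i => (hx i).1, fun i => (hx i).2⟩

section curve

variable [IsAlgClosed k] [CharZero k]

/-- Line joining two vectors. -/
noncomputable def lin (a b : k) : k[X] := C a * (1 - X) + C b * X

lemma lin_zero (a b : k) : (lin a b).eval 0 = a := by simp [lin]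
lemma lin_one (a b : k) : (lin a b).eval 1 = b := by simp [lin]

lemma poly_ne_zero {p : k[X]} {a : k} (h : p.eval a ≠ 0) : p ≠ 0 := by
  rintro rfl
  simp at h

/-- If the group acts trivially through one coordinate then the function is constant. -/
theorem const_of_zero (hE : IsFull E) {χ : Fin 3 → ZMod m} {φ : FermatPt k 3 m → k}
    (hk : Kills (fermat k 3 m) φ) (he : Equi E χ φ) {j : Fin 3} (hj : χ j = 0)
    (p q : FermatPt k 3 m) : φ p = φ q := by
  classical
  obtain ⟨u, hu, hu', rfl⟩ := exists_pt p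
  obtain ⟨w, hw, hw', rfl⟩ := exists_pt q
  have hm : m ≠ 0 := NeZero.ne m
  -- the remaining coordinate
  set S : k[X] := -∑ i ∈ Finset.univ.erase j, lin (u i) (w i) ^ m with hS
  have hs0 : S.eval 0 = u j ^ m := by
    rw [hS, eval_neg, eval_finsetSum]
    simp only [eval_pow, lin_zero]
    rw [← Finset.add_sum_erase _ _ (Finset.mem_univ j)] at hu'
    linear_combination -hu'
  have hs1 : S.eval 1 = w j ^ m := by
    rw [hS, eval_neg, eval_finsetSum]
    simp only [eval_pow, lin_one]
    rw [← Finset.add_sum_erase _ _ (Finset.mem_univ j)] at hw'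
    linear_combination -hw'
  obtain ⟨K, _, _, τ, y, hK, hτ, hy⟩ := exists_poly_roots (k := k) hm (fun _ : Fin 1 => S)
  set U : Fin 3 → K := fun i => if i = j then y 0 else aeval τ (lin (u i) (w i)) with hU
  have hUm : ∑ i, U i ^ m = 0 := by
    rw [← Finset.add_sum_erase _ _ (Finset.mem_univ j)]
    have e1 : U j ^ m = aeval τ S := by
      rw [hU]; simp only [if_true]; exact hy 0
    have e2 : ∑ i ∈ Finset.univ.erase j, U i ^ m =
        ∑ i ∈ Finset.univ.erase j, aeval τ (lin (u i) (w i) ^ m) := by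
      apply Finset.sum_congr rfl
      intro i hi
      rw [hU, map_pow]
      simp only [Finset.ne_of_mem_erase hi, if_false]
    rw [e1, e2, ← map_sum, ← map_add, hS, neg_add_cancel, map_zero]
  -- values
  have hval : ∀ (a : k) (c : Fin 3 → k), c ≠ 0 → (∀ i, (lin (u i) (w i)).eval a = c i) →
      S.eval a = c j ^ m → ∀ v : Place k K, IsRes v τ a →
      ∃ b : Fin 3 → k, b ≠ 0 ∧ (∀ i, b i ^ m = c i ^ m) ∧ (∀ i, i ≠ j → b i = c i) ∧
        ∀ i, IsRes v (U i) (b i) := by
    intro a c hc h1 h2 v hv
    have h3 : IsRes v (y 0 ^ m) (c j ^ m) := by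
      rw [hy 0, ← h2]; exact hv.poly
    obtain ⟨e, he, he'⟩ := exists_res_of_pow hK hm h3
    refine ⟨fun i => if i = j then e else c i, ?_, ?_, ?_, ?_⟩
    · intro h0
      apply hc
      have h4 : ∀ i, i ≠ j → c i = 0 := by
        intro i hi
        have := congrFun h0 i
        simpa [hi] using this
      have h5 : e = 0 := by
        have := congrFun h0 j
        simpa using this
      rw [h5, zero_pow hm] at he'
      funext i
      by_cases hi : i = j
      · subst hi
        exact (pow_eq_zero_iff hm).mp he'.symm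
      · exact h4 i hi
    · intro i
      by_cases hi : i = j
      · subst hi; simp [he']
      · simp [hi]
    · intro i hi
      simp [hi]
    · intro i
      by_cases hi : i = j
      · subst hi; simp [hU, he]
      · simp only [hU, hi, if_false]
        rw [← h1 i]
        exact hv.poly
  have hU0 : U ≠ 0 := by
    obtain ⟨v, hv⟩ := exists_place hK hτ
    obtain ⟨b, hb, -, -, hb'⟩ := hval 0 u hu (fun i => lin_zero _ _) hs0 v
      (isRes_zero_iff.mpr hv)
    exact res_ne_zero hb hb'
  have hfin : ∀ (a : k) (c : Fin 3 → k) (hc : c ≠ 0) (hc' : ∑ i, c i ^ m = 0),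
      (∀ i, (lin (u i) (w i)).eval a = c i) → S.eval a = c j ^ m →
      ∀ v : Place k K, IsRes v τ a →
      φ ((fermat k 3 m).eval hK (pt U hU0 hUm) v) = φ (pt c hc hc') := by
    intro a c hc hc' h1 h2 v hv
    obtain ⟨b, hb, hbm, hbj, hb'⟩ := hval a c hc h1 h2 v hv
    have hbs : ∑ i, b i ^ m = 0 := by rw [← hc']; exact Finset.sum_congr rfl (fun i _ => hbm i)
    rw [eval_eq hK v hU0 hUm hb hbs hb']
    obtain ⟨x, hx, hx'⟩ := exists_tw_one hE hbm
    have h3 : pt b hb hbs = tw E x (pt c hc hc') := tw_pt 1 (fun i => by rw [hx i, one_mul])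
    rw [h3, he x]
    have h4 : ∑ i, χ i * x i = 0 := by
      apply Finset.sum_eq_zero
      intro i _
      by_cases hi : i = j
      · subst hi; rw [hj, zero_mul]
      · rw [hx' i (hbj i hi), mul_zero]
    rw [h4, AddChar.map_zero_eq_one, one_mul]
  exact path hk hK (pt U hU0 hUm) hτ zero_ne_one
    (fun v hv => hfin 0 u hu hu' (fun i => lin_zero _ _) hs0 v hv)
    (fun v hv => hfin 1 w hw hw' (fun i => lin_one _ _) hs1 v hv)

end curve

end VF
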