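import Mathlib
import Pool.Agent.Helper9.NS
import Pool.Agent.Helper83.VF.Curve

/-!
# Eigenfunctions on the powers of the Fermat surface
-/

namespace VF

open VC VP Function

universe u

variable {k : Type u} [Field k] {m : ℕ} [NeZero m]

/-- The function `Ψ` on the closed points of the `n`-th power of the Fermat surface vanishes on
the cycles rationally equivalent to zero, it is an eigenfunction with character `χ i` on the
factor `i`, and it is antisymmetric for transpositions of factors with equal characters. -/
structure Eig (E : AddChar (ZMod m) k) [IsAlgClosed k] [CharZero k] {n : ℕ}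
    (χ : Fin n → Fin 4 → ZMod m) (Ψ : ((fermat k 4 m).pow n).Pt → k) : Prop where
  kills : Kills ((fermat k 4 m).pow n) Ψ
  equi : ∀ (p : ((fermat k 4 m).pow n).Pt) (i : Fin n) (x : Fin 4 → ZMod m),
    Ψ (update p i (tw E x (p i))) = E (∑ j, χ i j * x j) * Ψ p
  alt : ∀ i j, i ≠ j → χ i = χ j → ∀ p : ((fermat k 4 m).pow n).Pt,
    Ψ (fun l => p (Equiv.swap i j l)) = -Ψ p

end VF
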