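import Mathlib
import Pool.Agent.Helper83.VF.Curve

/-!
# Opposite characters on the square of a Fermat curve
-/

set_option linter.unusedSectionVars false

namespace VF

open VC VP Function Polynomial

universe u

variable {k : Type u} [Field k] {m : ℕ} [NeZero m] {E : AddChar (ZMod m) k}
  [IsAlgClosed k] [CharZero k]

/-- The function on `C × C` is an eigenfunction with characters `χ` and `χ'`. -/
def Equi2 (E : AddChar (ZMod m) k) {r r' : ℕ} (χ : Fin r → ZMod m) (χ' : Fin r' → ZMod m)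
    (ψ : FermatPt k r m × FermatPt k r' m → k) : Prop :=
  (∀ q, Equi E χ (fun p => ψ (p, q))) ∧ ∀ p, Equi E χ' (fun q => ψ (p, q))

lemma Equi2.both {r r' : ℕ} {χ : Fin r → ZMod m} {χ' : Fin r' → ZMod m}
    {ψ : FermatPt k r m × FermatPt k r' m → k} (h : Equi2 E χ χ' ψ) (x : Fin r → ZMod m)
    (y : Fin r' → ZMod m) (p : FermatPt k r m) (q : FermatPt k r' m) :
    ψ (tw E x p, tw E y q) = E (∑ i, χ i * x i) * (E (∑ i, χ' i * y i) * ψ (p, q)) := by
  have h1 := h.1 (tw E y q) x p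
  have h2 := h.2 p y q
  beta_reduce at h1 h2
  rw [h1, h2]

lemma Equi2.cancel {r : ℕ} {χ : Fin r → ZMod m}
    {ψ : FermatPt k r m × FermatPt k r m → k} (h : Equi2 E χ (fun i => -χ i) ψ)
    (x : Fin r → ZMod m) (p q : FermatPt k r m) : ψ (tw E x p, tw E x q) = ψ (p, q) := by
  rw [h.both, ← mul_assoc, ← AddChar.map_add_eq_mul]
  have : ∑ i, χ i * x i + ∑ i, -χ i * x i = 0 := by
    rw [← Finset.sum_add_distrib]
    apply Finset.sum_eq_zero
    intro i _
    ring
  rw [this, AddChar.map_zero_eq_one, one_mul]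

variable {χ : Fin 3 → ZMod m} {ψ : FermatPt k 3 m × FermatPt k 3 m → k}

section gen

variable {n : ℕ}

/-- The general path in `C × C`: `U_i^m = S_i(τ)` and `U'_i = R_i(τ) U_i`. -/
theorem path_pair (hk : Kills ((fermat k 3 m).prod (fermat k 3 m)) ψ) (S R : Fin 3 → k[X])
    (hS : ∑ i, S i = 0) (hR : ∑ i, R i ^ m * S i = 0) {a b : k} (hab : a ≠ b) {A B : k}
    (ha : ∃ i, (S i).eval a ≠ 0 ∧ (R i).eval a ≠ 0)
    (hA : ∀ (e e' : Fin 3 → k) (he : e ≠ 0) (he' : e' ≠ 0) (h : ∑ i, e i ^ m = 0)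
      (h' : ∑ i, e' i ^ m = 0), (∀ i, e i ^ m = (S i).eval a) →
      (∀ i, e' i = (R i).eval a * e i) → ψ (pt e he h, pt e' he' h') = A)
    (hb : ∃ i, (S i).eval b ≠ 0 ∧ (R i).eval b ≠ 0)
    (hB : ∀ (e e' : Fin 3 → k) (he : e ≠ 0) (he' : e' ≠ 0) (h : ∑ i, e i ^ m = 0)
      (h' : ∑ i, e' i ^ m = 0), (∀ i, e i ^ m = (S i).eval b) →
      (∀ i, e' i = (R i).eval b * e i) → ψ (pt e he h, pt e' he' h') = B) : A = B := by
  have hm : m ≠ 0 := NeZero.ne m
  obtain ⟨K, _, _, τ, U, hK, hτ, hU⟩ := exists_poly_roots (k := k) hm S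
  obtain ⟨i, hi, hi'⟩ := id ha
  have hUi : U i ≠ 0 := by
    intro h0
    have := hU i
    rw [h0, zero_pow hm] at this
    exact aeval_ne_zero hτ (poly_ne_zero hi) this.symm
  have hRi : aeval τ (R i) ≠ 0 := aeval_ne_zero hτ (poly_ne_zero hi')
  have hU0 : U ≠ 0 := fun h => hUi (congrFun h i)
  have hU1 : (fun i => aeval τ (R i) * U i) ≠ 0 := fun h =>
    (mul_ne_zero hRi hUi) (congrFun h i)
  have hUm : ∑ i, U i ^ m = 0 := by
    rw [Finset.sum_congr rfl (fun i _ => hU i), ← map_sum, hS, map_zero]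
  have hUm' : ∑ i, (aeval τ (R i) * U i) ^ m = 0 := by
    have e : ∀ i ∈ (Finset.univ : Finset (Fin 3)), (aeval τ (R i) * U i) ^ m =
        aeval τ (R i ^ m * S i) := by
      intro i _
      rw [mul_pow, hU i, map_mul, map_pow]
    rw [Finset.sum_congr rfl e, ← map_sum, hR, map_zero]
  have key : ∀ (d : k) (D : k), (∃ i, (S i).eval d ≠ 0 ∧ (R i).eval d ≠ 0) →
      (∀ (e e' : Fin 3 → k) (he : e ≠ 0) (he' : e' ≠ 0) (h : ∑ i, e i ^ m = 0)
      (h' : ∑ i, e' i ^ m = 0), (∀ i, e i ^ m = (S i).eval d) →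
      (∀ i, e' i = (R i).eval d * e i) → ψ (pt e he h, pt e' he' h') = D) →
      ∀ v : Place k K, IsRes v τ d → ψ (((fermat k 3 m).prod (fermat k 3 m)).eval hK
        (pt U hU0 hUm, pt (fun i => aeval τ (R i) * U i) hU1 hUm') v) = D := by
    intro d D hd hD v hv
    have h1 : ∀ i, ∃ e, IsRes v (U i) e ∧ e ^ m = (S i).eval d := by
      intro i
      apply exists_res_of_pow hK hm
      rw [hU i]; exact hv.poly
    choose e he he' using h1
    obtain ⟨j, hj, hj'⟩ := hd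
    have hej : e j ≠ 0 := by
      intro h0
      apply hj
      rw [← he' j, h0, zero_pow hm]
    have he0 : e ≠ 0 := fun h => hej (congrFun h j)
    have he1 : (fun i => (R i).eval d * e i) ≠ 0 := fun h =>
      (mul_ne_zero hj' hej) (congrFun h j)
    have hs : ∑ i, e i ^ m = 0 := by
      rw [Finset.sum_congr rfl (fun i _ => he' i), ← eval_finsetSum, hS, eval_zero]
    have hs' : ∑ i, ((R i).eval d * e i) ^ m = 0 := by
      have e : ∀ i ∈ (Finset.univ : Finset (Fin 3)), ((R i).eval d * e i) ^ m =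
          (R i ^ m * S i).eval d := by
        intro i _
        rw [mul_pow, he' i, eval_mul, eval_pow]
      rw [Finset.sum_congr rfl e, ← eval_finsetSum, hR, eval_zero]
    have h2 : ((fermat k 3 m).prod (fermat k 3 m)).eval hK
        (pt U hU0 hUm, pt (fun i => aeval τ (R i) * U i) hU1 hUm') v =
        (pt e he0 hs, pt (fun i => (R i).eval d * e i) he1 hs') := by
      refine Prod.ext ?_ ?_
      · exact eval_eq hK v hU0 hUm he0 hs he
      · exact eval_eq hK v hU1 hUm' he1 hs' (fun i => (hv.poly).mul (he i))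
    rw [h2]
    exact hD _ _ _ _ _ _ he' (fun i => rfl)
  exact path hk hK _ hτ hab (key a A ha hA) (key b B hb hB)

end gen

/-- The general case. -/
lemma kill_opp_gen (hE : IsFull E) (hk : Kills ((fermat k 3 m).prod (fermat k 3 m)) ψ)
    (he : Equi2 E χ (fun i => -χ i) ψ) (hχ : ∀ i, χ i ≠ 0) {u u' r : Fin 3 → k}
    (hu : u ≠ 0) (hu' : u' ≠ 0) (h : ∑ i, u i ^ m = 0) (h' : ∑ i, u' i ^ m = 0)
    (h0 : ∀ i, u i ≠ 0) (hr0 : ∀ i, r i ≠ 0) (hr : ∀ i, u' i = r i * u i)
    (hne : ∃ i j, r i ^ m ≠ r j ^ m) : ψ (pt u hu h, pt u' hu' h') = 0 := by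
  have hm : m ≠ 0 := NeZero.ne m
  have h2m : (2 : k) ^ m ≠ 1 := by
    have : ((2 ^ m : ℕ) : k) ≠ ((1 : ℕ) : k) := by
      rw [Ne, Nat.cast_inj]
      exact (Nat.one_lt_two_pow hm).ne'
    simpa using this
  let t : Fin 3 → k := ![2, 1, 1]
  let R : Fin 3 → k[X] := fun i => lin (r i) (t i)
  let S : Fin 3 → k[X] := ![R 2 ^ m - R 1 ^ m, R 0 ^ m - R 2 ^ m, R 1 ^ m - R 0 ^ m]
  have hR0 : ∀ i, (R i).eval 0 = r i := fun i => lin_zero _ _
  have hR1 : ∀ i, (R i).eval 1 = t i := fun i => lin_one _ _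
  have S0 : (S 0) = R 2 ^ m - R 1 ^ m := rfl
  have S1 : (S 1) = R 0 ^ m - R 2 ^ m := rfl
  have S2 : (S 2) = R 1 ^ m - R 0 ^ m := rfl
  -- the two linear equations
  have e1 : u 0 ^ m + u 1 ^ m + u 2 ^ m = 0 := by rw [← h, Fin.sum_univ_three]
  have e2 : r 0 ^ m * u 0 ^ m + r 1 ^ m * u 1 ^ m + r 2 ^ m * u 2 ^ m = 0 := by
    rw [← h', Fin.sum_univ_three, hr 0, hr 1, hr 2]; ring
  have hcross : ∀ i j, (S i).eval 0 * u j ^ m = (S j).eval 0 * u i ^ m := by
    intro i j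
    fin_cases i <;> fin_cases j <;>
      simp only [Fin.zero_eta, Fin.mk_one, Fin.reduceFinMk, S0, S1, S2, eval_sub, eval_pow, hR0]
    · linear_combination r 2 ^ m * e1 - e2
    · linear_combination r 1 ^ m * (-e1) + e2
    · linear_combination -(r 2 ^ m * e1 - e2)
    · linear_combination r 0 ^ m * e1 - e2
    · linear_combination -(r 1 ^ m * (-e1) + e2)
    · linear_combination -(r 0 ^ m * e1 - e2)
  have hSne : ∃ i, (S i).eval 0 ≠ 0 := by
    by_contra hcon
    push Not at hcon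
    have c0 := hcon 0
    have c1 := hcon 1
    have c2 := hcon 2
    rw [S0, eval_sub, eval_pow, eval_pow, hR0, hR0, sub_eq_zero] at c0
    rw [S1, eval_sub, eval_pow, eval_pow, hR0, hR0, sub_eq_zero] at c1
    rw [S2, eval_sub, eval_pow, eval_pow, hR0, hR0, sub_eq_zero] at c2
    obtain ⟨i, j, hij⟩ := hne
    apply hij
    have hall : ∀ i, r i ^ m = r 0 ^ m := by
      intro i
      fin_cases i
      · exact rfl
      · exact c2
      · exact c1.symm
    rw [hall i, hall j]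
  obtain ⟨i₀, hi₀⟩ := hSne
  set l := (S i₀).eval 0 / u i₀ ^ m with hl
  have hui : u i₀ ^ m ≠ 0 := pow_ne_zero _ (h0 i₀)
  have hl0 : l ≠ 0 := div_ne_zero hi₀ hui
  have hSl : ∀ i, (S i).eval 0 = l * u i ^ m := by
    intro i
    rw [hl, div_mul_eq_mul_div, eq_div_iff hui, hcross i i₀]
  refine path_pair hk S R ?_ ?_ (zero_ne_one (α := k)) ?_ ?_ ?_ ?_
  · rw [Fin.sum_univ_three, S0, S1, S2]; ring
  · rw [Fin.sum_univ_three, S0, S1, S2]; ring
  · exact ⟨i₀, hi₀, by rw [hR0]; exact hr0 i₀⟩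
  · intro e e' he0 he0' hs hs' h1 h2
    obtain ⟨c, x, _, hx⟩ := exists_tw hE hl0 (fun i => (h1 i).trans (hSl i))
    have t1 : pt e he0 hs = tw E x (pt u hu h) := tw_pt c hx
    have t2 : pt e' he0' hs' = tw E x (pt u' hu' h') := tw_pt c (fun i => by
      rw [h2 i, hR0, hx i, hr i]; ring)
    rw [t1, t2, he.cancel]
  · refine ⟨1, ?_, ?_⟩
    · rw [S1, eval_sub, eval_pow, eval_pow, hR1, hR1]
      change (2 : k) ^ m - 1 ^ m ≠ 0
      rw [one_pow]
      exact sub_ne_zero.mpr h2m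
    · rw [hR1]; exact one_ne_zero
  · intro e e' he0 he0' hs hs' h1 h2
    have h3 : e 0 = 0 := by
      have := h1 0
      rw [S0, eval_sub, eval_pow, eval_pow, hR1, hR1] at this
      change e 0 ^ m = 1 ^ m - 1 ^ m at this
      rw [sub_self] at this
      exact (pow_eq_zero_iff hm).mp this
    exact (he.1 _).zero_coord hE (hχ 0) he0 hs h3

/-- The diagonal. -/
lemma kill_opp_diag (hE : IsFull E) (hk : Kills ((fermat k 3 m).prod (fermat k 3 m)) ψ)
    (he : Equi2 E χ (fun i => -χ i) ψ) (hχ : ∀ i, χ i ≠ 0) {u : Fin 3 → k}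
    (hu : u ≠ 0) (h : ∑ i, u i ^ m = 0)
    (h0 : ∀ i, u i ≠ 0) : ψ (pt u hu h, pt u hu h) = 0 := by
  have hm : m ≠ 0 := NeZero.ne m
  let s : Fin 3 → k := fun i => u i ^ m
  have hs : s 0 + s 1 + s 2 = 0 := by rw [← h, Fin.sum_univ_three]
  let G : k[X] → k[X] → k[X] := fun x y => ∑ i ∈ Finset.range m, x ^ i * y ^ (m - 1 - i)
  have hG : ∀ x y, G x y * (x - y) = x ^ m - y ^ m := fun x y => geom_sum₂_mul x y m
  let R : Fin 3 → k[X] := ![1, 1 + C (s 2) * X, 1 - C (s 1) * X]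
  let S : Fin 3 → k[X] := ![C (s 0) * G (R 2) (R 1), C (s 1) * G (R 0) (R 2),
    C (s 2) * G (R 1) (R 0)]
  have R0 : R 0 = 1 := rfl
  have R1 : R 1 = 1 + C (s 2) * X := rfl
  have R2 : R 2 = 1 - C (s 1) * X := rfl
  have d0 : R 2 - R 1 = C (s 0) * X := by
    have : s 0 = -(s 1) - s 2 := by linear_combination hs
    rw [R2, R1, this, C_sub, C_neg]; ring
  have d1 : R 0 - R 2 = C (s 1) * X := by rw [R2, R0]; ring
  have d2 : R 1 - R 0 = C (s 2) * X := by rw [R1, R0]; ring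
  have x0 : X * S 0 = R 2 ^ m - R 1 ^ m := by
    rw [← hG, d0]
    change X * (C (s 0) * G (R 2) (R 1)) = _
    ring
  have x1 : X * S 1 = R 0 ^ m - R 2 ^ m := by
    rw [← hG, d1]
    change X * (C (s 1) * G (R 0) (R 2)) = _
    ring
  have x2 : X * S 2 = R 1 ^ m - R 0 ^ m := by
    rw [← hG, d2]
    change X * (C (s 2) * G (R 1) (R 0)) = _
    ring
  have hR0 : ∀ i, (R i).eval 0 = 1 := by
    intro i
    fin_cases i
    · change (1 : k[X]).eval 0 = 1; simp
    · change (1 + C (s 2) * X : k[X]).eval 0 = 1; simp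
    · change (1 - C (s 1) * X : k[X]).eval 0 = 1; simp
  have hG0 : ∀ i j, (G (R i) (R j)).eval 0 = m := by
    intro i j
    simp only [G, eval_finsetSum, eval_mul, eval_pow, hR0, one_pow, mul_one, Finset.sum_const,
      Finset.card_range, nsmul_eq_mul]
  have hS0 : ∀ i, (S i).eval 0 = m * u i ^ m := by
    intro i
    fin_cases i
    · change (C (s 0) * G (R 2) (R 1)).eval 0 = _
      rw [eval_mul, eval_C, hG0, mul_comm]; rfl
    · change (C (s 1) * G (R 0) (R 2)).eval 0 = _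
      rw [eval_mul, eval_C, hG0, mul_comm]; rfl
    · change (C (s 2) * G (R 1) (R 0)).eval 0 = _
      rw [eval_mul, eval_C, hG0, mul_comm]; rfl
  have hmk : (m : k) ≠ 0 := Nat.cast_ne_zero.mpr hm
  -- the other point
  obtain ⟨a, ha⟩ : ∃ a : k, (X * S 0 * R 1 * R 2 : k[X]).eval a ≠ 0 := by
    by_contra hcon
    push Not at hcon
    have h1 : (X * S 0 * R 1 * R 2 : k[X]) = 0 := Polynomial.funext (fun a => by
      rw [hcon a, eval_zero])
    rw [mul_eq_zero, mul_eq_zero, mul_eq_zero] at h1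
    rcases h1 with ((h1 | h1) | h1) | h1
    · exact X_ne_zero h1
    · have := hS0 0
      rw [h1, eval_zero] at this
      exact mul_ne_zero hmk (pow_ne_zero _ (h0 0)) this.symm
    · have := hR0 1
      rw [h1, eval_zero] at this
      exact zero_ne_one this
    · have := hR0 2
      rw [h1, eval_zero] at this
      exact zero_ne_one this
  rw [eval_mul, eval_mul, eval_mul, eval_X] at ha
  have ha2 : (R 2).eval a ≠ 0 := right_ne_zero_of_mul ha
  have ha1 : (R 1).eval a ≠ 0 := right_ne_zero_of_mul (left_ne_zero_of_mul ha)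
  have has : (S 0).eval a ≠ 0 := right_ne_zero_of_mul (left_ne_zero_of_mul (left_ne_zero_of_mul ha))
  have ha0 : a ≠ 0 := left_ne_zero_of_mul (left_ne_zero_of_mul (left_ne_zero_of_mul ha))
  have haR : ∀ i, (R i).eval a ≠ 0 := by
    intro i
    fin_cases i
    · change (1 : k[X]).eval a ≠ 0; simp
    · exact ha1
    · exact ha2
  refine path_pair hk S R ?_ ?_ ha0.symm ?_ ?_ ?_ ?_
  · apply mul_left_cancel₀ (X_ne_zero (R := k))
    rw [Fin.sum_univ_three, mul_add, mul_add, x0, x1, x2]; ring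
  · apply mul_left_cancel₀ (X_ne_zero (R := k))
    rw [Fin.sum_univ_three]
    linear_combination R 0 ^ m * x0 + R 1 ^ m * x1 + R 2 ^ m * x2
  · exact ⟨0, by rw [hS0]; exact mul_ne_zero hmk (pow_ne_zero _ (h0 0)), by
      rw [hR0]; exact one_ne_zero⟩
  · intro e e' he0 he0' hs hs' h1 h2
    obtain ⟨c, x, _, hx⟩ := exists_tw hE hmk (fun i => (h1 i).trans (hS0 i))
    have t1 : pt e he0 hs = tw E x (pt u hu h) := tw_pt c hx
    have t2 : pt e' he0' hs' = tw E x (pt u hu h) := tw_pt c (fun i => by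
      rw [h2 i, hR0, hx i]; ring)
    rw [t1, t2, he.cancel]
  · exact ⟨0, has, haR 0⟩
  · intro e e' he0 he0' hs hs' h1 h2
    by_cases hz : ∃ i, e i = 0
    · obtain ⟨i, hi⟩ := hz
      exact (he.1 _).zero_coord hE (hχ i) he0 hs hi
    · push Not at hz
      refine kill_opp_gen (r := fun i => (R i).eval a) hE hk he hχ he0 he0' hs hs' hz haR h2 ?_
      refine ⟨2, 1, ?_⟩
      intro h3
      have h4 := congrArg (Polynomial.eval a) x0
      rw [eval_mul, eval_X, eval_sub, eval_pow, eval_pow, h3, sub_self] at h4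
      exact mul_ne_zero ha0 has h4

/-- **Opposite characters.** The part of the Chow group of zero-cycles of `C × C` with opposite
characters is zero. -/
theorem kill_opp (hE : IsFull E) (hk : Kills ((fermat k 3 m).prod (fermat k 3 m)) ψ)
    (he : Equi2 E χ (fun i => -χ i) ψ) (hχ : ∀ i, χ i ≠ 0) (p q : FermatPt k 3 m) :
    ψ (p, q) = 0 := by
  have hm : m ≠ 0 := NeZero.ne m
  obtain ⟨u, hu, h, rfl⟩ := exists_pt p
  obtain ⟨u', hu', h', rfl⟩ := exists_pt q
  by_cases hz : ∃ i, u i = 0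
  · obtain ⟨i, hi⟩ := hz
    exact (he.1 _).zero_coord hE (hχ i) hu h hi
  by_cases hz' : ∃ i, u' i = 0
  · obtain ⟨i, hi⟩ := hz'
    exact (he.2 _).zero_coord hE (neg_ne_zero.mpr (hχ i)) hu' h' hi
  push Not at hz hz'
  by_cases hne : ∃ i j, (u' i / u i) ^ m ≠ (u' j / u j) ^ m
  · exact kill_opp_gen (r := fun i => u' i / u i) hE hk he hχ hu hu' h h' hz
      (fun i => div_ne_zero (hz' i) (hz i)) (fun i => by rw [div_mul_cancel₀ _ (hz i)]) hne
  · push Not at hne
    obtain ⟨c, x, _, hx⟩ := exists_tw (a := u) (b := u') hE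
      (l := (u' 0 / u 0) ^ m) (pow_ne_zero _ (div_ne_zero (hz' 0) (hz 0))) (fun i => by
        rw [hne 0 i, ← mul_pow, div_mul_cancel₀ _ (hz i)])
    have t1 : pt u' hu' h' = tw E x (pt u hu h) := tw_pt c hx
    have h1 := he.2 (pt u hu h) x (pt u hu h)
    beta_reduce at h1
    rw [t1, h1, kill_opp_diag hE hk he hχ hu h hz, mul_zero]

end VF
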