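import Mathlib
import Pool.Agent.Helper9.NS
import Pool.Agent.Helper83.VF.Curve

/-!
# Zero-cycles on the Fermat surface
-/

set_option linter.unusedSectionVars false

namespace VF

open VC VP Function Polynomial

universe u

section mono

variable {k : Type u} [Field k] {m : ℕ} [NeZero m] {E : AddChar (ZMod m) k} {r s : ℕ}
  {σ : Fin r → Fin s} {c : Fin r → k}

lemma mono_tw (h : IsMono m σ c) (x : Fin s → ZMod m) (p : FermatPt k s m) :
    mono h (tw E x p) = tw E (fun i => x (σ i)) (mono h p) := by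
  obtain ⟨a, ha, h', rfl⟩ := exists_pt p
  unfold tw
  rw [mono_pt', mono_pt', mono_pt', mono_pt']
  rw [pt_eq_iff]
  refine ⟨1, fun i => ?_⟩
  simp only [id]
  ring

lemma Equi.comp_mono {χ : Fin r → ZMod m} {φ : FermatPt k r m → k} (h : IsMono m σ c)
    (he : Equi E χ φ) : Equi E (fun j => ∑ i with σ i = j, χ i) (fun p => φ (mono h p)) := by
  intro x p
  beta_reduce
  rw [mono_tw, he]
  congr 2
  rw [← Finset.sum_fiberwise_of_maps_to (s := Finset.univ) (t := Finset.univ) (g := σ)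
    (fun _ _ => Finset.mem_univ _)]
  apply Finset.sum_congr rfl
  intro j _
  rw [Finset.sum_mul]
  apply Finset.sum_congr rfl
  intro i hi
  rw [(Finset.mem_filter.mp hi).2]

/-- Scalars act trivially. -/
lemma Equi.sum_zero (hE : IsFull E) {χ : Fin r → ZMod m} {φ : FermatPt k r m → k}
    (he : Equi E χ φ) (hχ : ∑ i, χ i ≠ 0) (p : FermatPt k r m) : φ p = 0 := by
  have h1 : p = tw E (fun _ => 1) p := by
    obtain ⟨a, ha, h', rfl⟩ := exists_pt p
    apply tw_pt (E (-1))
    intro i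
    rw [← mul_assoc, ← AddChar.map_add_eq_mul, neg_add_cancel, AddChar.map_zero_eq_one, one_mul]
  have h2 := he (fun _ => 1) p
  rw [← h1] at h2
  by_contra h3
  have h4 : E (∑ i, χ i * 1) = 1 := by
    have h6 : (E (∑ i, χ i * 1) - 1) * φ p = 0 := by rw [sub_mul, one_mul, ← h2, sub_self]
    rcases mul_eq_zero.mp h6 with h6 | h6
    · exact sub_eq_zero.mp h6
    · exact absurd h6 h3
  simp only [mul_one] at h4
  exact hχ (hE.1 _ h4)

variable (k) in
lemma isMono_perm (π : Equiv.Perm (Fin r)) : IsMono m (π : Fin r → Fin r) (fun _ => (1 : k)) := by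
  intro j
  have : (Finset.univ.filter (fun i => π i = j)) = {π.symm j} := by
    ext i
    simp [Equiv.eq_symm_apply]
  rw [this, Finset.sum_singleton, one_pow]

end mono

section section_

variable {k : Type u} [Field k] {m : ℕ}

lemma sum_sec {M : Type*} [AddCommMonoid M] (g : Equiv.Perm (Fin 4)) (f : Fin 4 → M) (j : Fin 3) :
    ∑ t with (![0, 1, 2, 2] : Fin 4 → Fin 3) (g.symm t) = j, f t =
      (![f (g 0), f (g 1), f (g 2) + f (g 3)] : Fin 3 → M) j := by
  rw [Finset.sum_filter, ← Equiv.sum_comp g]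
  simp only [Equiv.symm_apply_apply]
  rw [Fin.sum_univ_four]
  fin_cases j <;> simp

lemma sum_perm {M : Type*} [AddCommMonoid M] (g : Equiv.Perm (Fin 4)) (f : Fin 4 → M) :
    ∑ t, f t = f (g 0) + f (g 1) + f (g 2) + f (g 3) := by
  rw [← Equiv.sum_comp g, Fin.sum_univ_four]

/-- The maps given by the coordinates of the plane section through a point `p` and the line
`x_(g 0) = x_(g 1) = 0`. -/
def secσ (g : Equiv.Perm (Fin 4)) : Fin 4 → Fin 3 := fun t => ![0, 1, 2, 2] (g.symm t)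

/-- The coefficients of the plane section. -/
def secc (g : Equiv.Perm (Fin 4)) (p : Fin 4 → k) (c : k) : Fin 4 → k :=
  fun t => ![1, 1, p (g 2) / c, p (g 3) / c] (g.symm t)

lemma isMono_sec {g : Equiv.Perm (Fin 4)} {p : Fin 4 → k} {c : k} (hc : c ^ m ≠ 0)
    (h : c ^ m = p (g 2) ^ m + p (g 3) ^ m) : IsMono m (secσ g) (secc g p c) := by
  intro j
  unfold secσ
  rw [sum_sec g (fun t => secc g p c t ^ m)]
  fin_cases j
  · simp [secc]
  · simp [secc]
  · simp only [secc, Equiv.symm_apply_apply]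
    change (p (g 2) / c) ^ m + (p (g 3) / c) ^ m = 1
    rw [div_pow, div_pow, ← add_div, ← h, div_self hc]

/-- Equality of points given by the coordinates in the order `g`. -/
lemma pt_eq_perm {K : Type u} [Field K] (g : Equiv.Perm (Fin 4)) {a b : Fin 4 → K} {ha : a ≠ 0}
    {hb : b ≠ 0} {h : ∑ i, a i ^ m = 0} {h' : ∑ i, b i ^ m = 0} (c : K)
    (h0 : c * b (g 0) = a (g 0)) (h1 : c * b (g 1) = a (g 1)) (h2 : c * b (g 2) = a (g 2))
    (h3 : c * b (g 3) = a (g 3)) : pt a ha h = pt b hb h' := by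
  rw [pt_eq_iff]
  refine ⟨c, fun i => ?_⟩
  obtain ⟨j, rfl⟩ := g.surjective i
  fin_cases j
  · exact h0
  · exact h1
  · exact h2
  · exact h3

variable [IsAlgClosed k] [CharZero k] [NeZero m] {E : AddChar (ZMod m) k}

/-- The character of the restriction to a plane section. -/
def secχ (g : Equiv.Perm (Fin 4)) (b : Fin 4 → ZMod m) : Fin 3 → ZMod m :=
  ![b (g 0), b (g 1), b (g 2) + b (g 3)]

lemma Equi.sec {g : Equiv.Perm (Fin 4)} {b : Fin 4 → ZMod m} {φ : FermatPt k 4 m → k}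
    (he : Equi E b φ) {p : Fin 4 → k} {c : k} (h : IsMono m (secσ g) (secc g p c)) :
    Equi E (secχ g b) (fun x => φ (mono h x)) := by
  have := he.comp_mono h
  have e : (fun j => ∑ i with secσ g i = j, b i) = secχ g b := by
    funext j
    exact sum_sec g b j
  rwa [e] at this

lemma exists_root (hm : m ≠ 0) (a : k) : ∃ c : k, c ^ m = a :=
  IsAlgClosed.exists_pow_nat_eq a (Nat.pos_of_ne_zero hm)

/-- A point as a point of its plane section. -/
lemma sec_self (g : Equiv.Perm (Fin 4)) {p : Fin 4 → k} (hp : p ≠ 0) (hs : ∑ i, p i ^ m = 0)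
    {c : k} (hc : c ≠ 0) (h : c ^ m = p (g 2) ^ m + p (g 3) ^ m)
    (hm : IsMono m (secσ g) (secc g p c)) :
    ∃ (h0 : ![p (g 0), p (g 1), c] ≠ 0)
      (h1 : ∑ i, (![p (g 0), p (g 1), c] : Fin 3 → k) i ^ m = 0),
      mono hm (pt ![p (g 0), p (g 1), c] h0 h1) = pt p hp hs := by
  have h0 : (![p (g 0), p (g 1), c] : Fin 3 → k) ≠ 0 := by
    intro h0
    exact hc (congrFun h0 2)
  have h1 : ∑ i, (![p (g 0), p (g 1), c] : Fin 3 → k) i ^ m = 0 := by
    rw [Fin.sum_univ_three]
    change p (g 0) ^ m + p (g 1) ^ m + c ^ m = 0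
    rw [h, ← hs, sum_perm g]
    ring
  refine ⟨h0, h1, ?_⟩
  rw [mono_pt']
  apply pt_eq_perm g 1
  · simp [secc, secσ]
  · simp [secc, secσ]
  · simp [secc, secσ, hc]
  · simp [secc, secσ, hc]

/-- Two points of the Fermat surface on a line contained in it. -/
lemma line_path {φ : FermatPt k 4 m → k} (hk : Kills (fermat k 4 m) φ) (g : Equiv.Perm (Fin 4))
    {p q : Fin 4 → k} (hp : p ≠ 0) (hs : ∑ i, p i ^ m = 0) (hq : q ≠ 0) (hs' : ∑ i, q i ^ m = 0)
    (h23 : p (g 2) ^ m + p (g 3) ^ m = 0) (h0 : q (g 0) = p (g 0)) (h1 : q (g 1) = p (g 1))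
    (h2 : q (g 2) = 0) (h3 : q (g 3) = 0) : φ (pt p hp hs) = φ (pt q hq hs') := by
  have hm : m ≠ 0 := NeZero.ne m
  have hK := ff_ratFunc (k := k)
  set τ : RatFunc k := RatFunc.X with hτd
  have hτ : Transcendental k τ := transcendental_ratX
  set U : Fin 4 → RatFunc k := fun i => aeval τ (lin (p i) (q i)) with hU
  have h01 : p (g 0) ^ m + p (g 1) ^ m = 0 := by
    rw [sum_perm g] at hs
    linear_combination hs - h23
  have e0 : U (g 0) = algebraMap k _ (p (g 0)) := by
    simp only [hU, lin, h0, map_add, map_mul, aeval_C, map_sub, map_one, aeval_X]; ring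
  have e1 : U (g 1) = algebraMap k _ (p (g 1)) := by
    simp only [hU, lin, h1, map_add, map_mul, aeval_C, map_sub, map_one, aeval_X]; ring
  have e2 : U (g 2) = (1 - τ) * algebraMap k _ (p (g 2)) := by
    simp only [hU, lin, h2, map_add, map_mul, aeval_C, map_sub, map_one, aeval_X, map_zero]; ring
  have e3 : U (g 3) = (1 - τ) * algebraMap k _ (p (g 3)) := by
    simp only [hU, lin, h3, map_add, map_mul, aeval_C, map_sub, map_one, aeval_X, map_zero]; ring
  have hUm : ∑ i, U i ^ m = 0 := by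
    rw [sum_perm g, e0, e1, e2, e3, mul_pow, mul_pow, add_assoc (_ + _), ← mul_add]
    simp only [← map_pow, ← map_add]
    rw [h01, h23, map_zero, mul_zero, add_zero]
  have hU0 : U ≠ 0 := by
    obtain ⟨v, hv⟩ := exists_place hK hτ
    have hv' : IsRes v τ 0 := isRes_zero_iff.mpr hv
    apply res_ne_zero hp (v := v)
    intro i
    have := hv'.poly (p := lin (p i) (q i))
    rwa [lin_zero] at this
  refine path hk hK (pt U hU0 hUm) hτ (zero_ne_one (α := k)) ?_ ?_
  · intro v hv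
    rw [eval_eq hK v hU0 hUm hp hs]
    intro i
    have := hv.poly (p := lin (p i) (q i))
    rwa [lin_zero] at this
  · intro v hv
    rw [eval_eq hK v hU0 hUm hq hs']
    intro i
    have := hv.poly (p := lin (p i) (q i))
    rwa [lin_one] at this

/-- An eigenfunction vanishes at the points of the lines of the surface. -/
lemma line_zero (hE : IsFull E) {φ : FermatPt k 4 m → k} (hk : Kills (fermat k 4 m) φ)
    {b : Fin 4 → ZMod m} (he : Equi E b φ) (g : Equiv.Perm (Fin 4))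
    (h01 : b (g 0) ≠ 0 ∨ b (g 1) ≠ 0) (h23 : b (g 2) ≠ 0 ∨ b (g 3) ≠ 0)
    {p : Fin 4 → k} (hp : p ≠ 0) (hs : ∑ i, p i ^ m = 0)
    (h : p (g 2) ^ m + p (g 3) ^ m = 0) : φ (pt p hp hs) = 0 := by
  have hm : m ≠ 0 := NeZero.ne m
  by_cases h0 : p (g 0) = 0 ∧ p (g 1) = 0
  · rcases h01 with h1 | h1
    · exact he.zero_coord hE h1 hp hs h0.1
    · exact he.zero_coord hE h1 hp hs h0.2
  · set q : Fin 4 → k := fun t => ![p (g 0), p (g 1), 0, 0] (g.symm t) with hqd
    have q0 : q (g 0) = p (g 0) := by simp [hqd]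
    have q1 : q (g 1) = p (g 1) := by simp [hqd]
    have q2 : q (g 2) = 0 := by simp [hqd]
    have q3 : q (g 3) = 0 := by simp [hqd]
    have hq : q ≠ 0 := by
      intro h1
      apply h0
      rw [← q0, ← q1, h1]
      exact ⟨rfl, rfl⟩
    have hqs : ∑ i, q i ^ m = 0 := by
      have hs4 := hs
      rw [sum_perm g] at hs4
      rw [sum_perm g, q0, q1, q2, q3, zero_pow hm]
      linear_combination hs4 - h
    rw [line_path hk g hp hs hq hqs h q0 q1 q2 q3]
    rcases h23 with h1 | h1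
    · exact he.zero_coord hE h1 hq hqs q2
    · exact he.zero_coord hE h1 hq hqs q3

/-- Eigenfunctions for a character whose restriction to a plane section has a zero entry. -/
lemma bad_zero (hE : IsFull E) {φ : FermatPt k 4 m → k} (hk : Kills (fermat k 4 m) φ)
    {b : Fin 4 → ZMod m} (he : Equi E b φ) (g : Equiv.Perm (Fin 4))
    (h01 : b (g 0) ≠ 0 ∨ b (g 1) ≠ 0) (h23 : b (g 2) ≠ 0 ∨ b (g 3) ≠ 0)
    {j : Fin 3} (hj : secχ g b j = 0) (P : FermatPt k 4 m) : φ P = 0 := by
  have hm : m ≠ 0 := NeZero.ne m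
  obtain ⟨p, hp, hs, rfl⟩ := exists_pt P
  by_cases h : p (g 2) ^ m + p (g 3) ^ m = 0
  · exact line_zero hE hk he g h01 h23 hp hs h
  obtain ⟨c, hc⟩ := exists_root hm (p (g 2) ^ m + p (g 3) ^ m)
  have hcm : c ^ m ≠ 0 := by rw [hc]; exact h
  have hc0 : c ≠ 0 := by
    rintro rfl
    exact hcm (zero_pow hm)
  have hM := isMono_sec hcm hc
  obtain ⟨h0, h1, h2⟩ := sec_self g hp hs hc0 hc hM
  obtain ⟨ε, hε⟩ := exists_root hm (-1 : k)
  have h3 : (![1, ε, 0] : Fin 3 → k) ≠ 0 := by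
    intro h3
    exact one_ne_zero (congrFun h3 0)
  have h4 : ∑ i, (![1, ε, 0] : Fin 3 → k) i ^ m = 0 := by
    rw [Fin.sum_univ_three]
    change (1 : k) ^ m + ε ^ m + 0 ^ m = 0
    rw [hε, zero_pow hm, one_pow]; ring
  rw [← h2]
  have h5 := const_of_zero hE (φ := fun x => φ (mono hM x)) (hk.comp (induced_mono hM))
    (he.sec hM) hj (pt _ h0 h1) (pt _ h3 h4)
  beta_reduce at h5
  rw [h5, mono_pt']
  rcases h23 with h23 | h23
  · exact he.zero_coord hE h23 _ _ (by simp [secσ])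
  · exact he.zero_coord hE h23 _ _ (by simp [secσ])

/-- Invariant functions are constant. -/
lemma const_of_inv {r : ℕ} (hE : IsFull E) {φ : FermatPt k r m → k}
    (hk : Kills (fermat k r m) φ) (he : Equi E (fun _ => 0) φ) (P Q : FermatPt k r m) :
    φ P = φ Q := by
  have hm : m ≠ 0 := NeZero.ne m
  obtain ⟨p, hp, hs, rfl⟩ := exists_pt P
  obtain ⟨q, hq, hs', rfl⟩ := exists_pt Q
  obtain ⟨K, _, _, τ, U, hK, hτ, hU⟩ := exists_poly_roots (k := k) hm
    (fun i => lin (p i ^ m) (q i ^ m))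
  have hUm : ∑ i, U i ^ m = 0 := by
    rw [Finset.sum_congr rfl (fun i _ => hU i), ← map_sum]
    have : ∑ i, lin (p i ^ m) (q i ^ m) = 0 := by
      simp only [lin, Finset.sum_add_distrib, ← Finset.sum_mul, ← map_sum]
      rw [hs, hs', map_zero, zero_mul, zero_mul, add_zero]
    rw [this, map_zero]
  have hval : ∀ (a : k) (c : Fin r → k), c ≠ 0 →
      (∀ i, (lin (p i ^ m) (q i ^ m)).eval a = c i ^ m) → ∀ v : Place k K, IsRes v τ a →
      ∃ e : Fin r → k, e ≠ 0 ∧ (∀ i, e i ^ m = c i ^ m) ∧ ∀ i, IsRes v (U i) (e i) := by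
    intro a c hc h1 v hv
    have h2 : ∀ i, ∃ e, IsRes v (U i) e ∧ e ^ m = c i ^ m := by
      intro i
      apply exists_res_of_pow hK hm
      rw [hU i, ← h1 i]; exact hv.poly
    choose e he he' using h2
    refine ⟨e, ?_, he', he⟩
    obtain ⟨j, hj⟩ := Function.ne_iff.mp hc
    intro h0
    apply hj
    have h3 := he' j
    rw [h0, Pi.zero_apply, zero_pow hm] at h3
    exact (pow_eq_zero_iff hm).mp h3.symm
  have hU0 : U ≠ 0 := by
    obtain ⟨v, hv⟩ := exists_place hK hτ
    obtain ⟨e, he, -, he'⟩ := hval 0 p hp (fun i => lin_zero _ _) v (isRes_zero_iff.mpr hv)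
    exact res_ne_zero he he'
  have hfin : ∀ (a : k) (c : Fin r → k) (hc : c ≠ 0) (hc' : ∑ i, c i ^ m = 0),
      (∀ i, (lin (p i ^ m) (q i ^ m)).eval a = c i ^ m) →
      ∀ v : Place k K, IsRes v τ a →
      φ ((fermat k r m).eval hK (pt U hU0 hUm) v) = φ (pt c hc hc') := by
    intro a c hc hc' h1 v hv
    obtain ⟨e, he1, he2, he3⟩ := hval a c hc h1 v hv
    have hes : ∑ i, e i ^ m = 0 := by rw [← hc']; exact Finset.sum_congr rfl (fun i _ => he2 i)
    rw [eval_eq hK v hU0 hUm he1 hes he3]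
    obtain ⟨x, hx, -⟩ := exists_tw_one hE he2
    have h3 : pt e he1 hes = tw E x (pt c hc hc') := tw_pt 1 (fun i => by rw [hx i, one_mul])
    rw [h3, he x]
    simp
  exact path hk hK (pt U hU0 hUm) hτ zero_ne_one
    (fun v hv => hfin 0 p hp hs (fun i => lin_zero _ _) v hv)
    (fun v hv => hfin 1 q hq hs' (fun i => lin_one _ _) v hv)

end section_

end VF
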