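import Mathlib
import Pool.Agent.Helper9.NS
import Pool.Agent.Helper70.VF.Comb
import Pool.Agent.Helper83.VF.Opp
import Pool.Agent.Helper83.VF.Surf

/-!
# Zero-cycles on the square of the Fermat surface
-/

set_option linter.unusedSectionVars false

namespace VF

open VC VP Function Polynomial
open Pool.Agent.Helper70.VF (triple Rel Good)

universe u

variable {k : Type u} [Field k] {m : ℕ} [NeZero m] {E : AddChar (ZMod m) k}
  [IsAlgClosed k] [CharZero k]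

lemma induced_left {r s : ℕ} (q : FermatPt k s m) :
    Induced (fermat k r m) ((fermat k r m).prod (fermat k s m)) (fun p => (p, q)) := by
  intro K _ _ hK c
  obtain ⟨d, hd⟩ := fermat_const K hK q
  exact ⟨(c, d), fun v => Prod.ext rfl (hd v)⟩

lemma induced_right {r s : ℕ} (p : FermatPt k r m) :
    Induced (fermat k s m) ((fermat k r m).prod (fermat k s m)) (fun q => (p, q)) := by
  intro K _ _ hK c
  obtain ⟨d, hd⟩ := fermat_const K hK p
  exact ⟨(d, c), fun v => Prod.ext (hd v) rfl⟩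

lemma Equi2.comp_mono {r s r' s' : ℕ} {σ : Fin r → Fin s} {c : Fin r → k}
    {σ' : Fin r' → Fin s'} {c' : Fin r' → k} (h : IsMono m σ c) (h' : IsMono m σ' c')
    {χ : Fin r → ZMod m} {χ' : Fin r' → ZMod m} {ψ : FermatPt k r m × FermatPt k r' m → k}
    (he : Equi2 E χ χ' ψ) :
    Equi2 E (fun j => ∑ i with σ i = j, χ i) (fun j => ∑ i with σ' i = j, χ' i)
      (fun z => ψ (mono h z.1, mono h' z.2)) :=
  ⟨fun q => (he.1 (mono h' q)).comp_mono h, fun p => (he.2 (mono h p)).comp_mono h'⟩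

lemma Equi2.sec {g g' : Equiv.Perm (Fin 4)} {b b' : Fin 4 → ZMod m}
    {ψ : FermatPt k 4 m × FermatPt k 4 m → k}
    (he : Equi2 E b b' ψ) {p p' : Fin 4 → k} {c c' : k} (h : IsMono m (secσ g) (secc g p c))
    (h' : IsMono m (secσ g') (secc g' p' c')) :
    Equi2 E (secχ g b) (secχ g' b') (fun z => ψ (mono h z.1, mono h' z.2)) :=
  ⟨fun q => (he.1 (mono h' q)).sec h, fun p => (he.2 (mono h p)).sec h'⟩

lemma Kills.comp_mono {r s r' s' : ℕ} {σ : Fin r → Fin s} {c : Fin r → k}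
    {σ' : Fin r' → Fin s'} {c' : Fin r' → k} (h : IsMono m σ c) (h' : IsMono m σ' c')
    {ψ : FermatPt k r m × FermatPt k r' m → k}
    (hk : Kills ((fermat k r m).prod (fermat k r' m)) ψ) :
    Kills ((fermat k s m).prod (fermat k s' m)) (fun z => ψ (mono h z.1, mono h' z.2)) :=
  hk.comp (Induced.prodMap (induced_mono h) (induced_mono h'))

lemma secχ_eq {b : Fin 4 → ZMod m} (hb : Good b) (g : Equiv.Perm (Fin 4)) :
    secχ g b = triple b (g 0) (g 1) := by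
  have h := hb.sum
  rw [← Fin.sum_univ_four, sum_perm g] at h
  have e : b (g 2) + b (g 3) = -(b (g 0) + b (g 1)) := by linear_combination h
  unfold secχ triple
  rw [e]

lemma secχ_ne {b : Fin 4 → ZMod m} (hb : Good b) (g : Equiv.Perm (Fin 4)) (i : Fin 3) :
    secχ g b i ≠ 0 := by
  fin_cases i
  · exact hb.ne _
  · exact hb.ne _
  · exact hb.pair _ _ (fun h => absurd (g.injective h) (by decide))

lemma exists_perm : ∀ i l : Fin 4, i ≠ l → ∃ g : Equiv.Perm (Fin 4), g 0 = i ∧ g 1 = l := by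
  decide

lemma mono_perm_inv (π : Equiv.Perm (Fin 3)) (p : FermatPt k 3 m) :
    mono (isMono_perm k π⁻¹) (mono (isMono_perm k π) p) = p := by
  obtain ⟨a, ha, h', rfl⟩ := exists_pt p
  rw [mono_pt', mono_pt', pt_eq_iff]
  refine ⟨1, fun i => ?_⟩
  simp

/-- Characters with opposite restrictions to plane sections. -/
theorem opp_zero (hE : IsFull E) {ψ : FermatPt k 4 m × FermatPt k 4 m → k}
    (hk : Kills ((fermat k 4 m).prod (fermat k 4 m)) ψ) {b b' : Fin 4 → ZMod m}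
    (he : Equi2 E b b' ψ) (hb : Good b) (hb' : Good b') (h : Rel b b')
    (P Q : FermatPt k 4 m) : ψ (P, Q) = 0 := by
  have hm : m ≠ 0 := NeZero.ne m
  obtain ⟨j, l, j', l', π, h1, h2, h3⟩ := h
  obtain ⟨g, rfl, rfl⟩ := exists_perm j l h1
  obtain ⟨g', rfl, rfl⟩ := exists_perm j' l' h2
  rw [← secχ_eq hb, ← secχ_eq hb'] at h3
  obtain ⟨p, hp, hs, rfl⟩ := exists_pt P
  obtain ⟨q, hq, hs', rfl⟩ := exists_pt Q
  by_cases hp0 : p (g 2) ^ m + p (g 3) ^ m = 0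
  · exact line_zero hE (hk.comp (induced_left _)) (he.1 _) g (Or.inl (hb.ne _)) (Or.inl (hb.ne _))
      hp hs hp0
  by_cases hq0 : q (g' 2) ^ m + q (g' 3) ^ m = 0
  · exact line_zero hE (hk.comp (induced_right _)) (he.2 _) g' (Or.inl (hb'.ne _))
      (Or.inl (hb'.ne _)) hq hs' hq0
  obtain ⟨c, hc⟩ := exists_root hm (p (g 2) ^ m + p (g 3) ^ m)
  obtain ⟨c', hc'⟩ := exists_root hm (q (g' 2) ^ m + q (g' 3) ^ m)
  have hcm : c ^ m ≠ 0 := by rw [hc]; exact hp0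
  have hcm' : c' ^ m ≠ 0 := by rw [hc']; exact hq0
  have hc0 : c ≠ 0 := by
    rintro rfl
    exact hcm (zero_pow hm)
  have hc0' : c' ≠ 0 := by
    rintro rfl
    exact hcm' (zero_pow hm)
  have hM := isMono_sec hcm hc
  have hM' := isMono_sec hcm' hc'
  obtain ⟨x0, x1, x2⟩ := sec_self g hp hs hc0 hc hM
  obtain ⟨y0, y1, y2⟩ := sec_self g' hq hs' hc0' hc' hM'
  rw [← x2, ← y2]
  have k1 := hk.comp_mono hM hM'
  have k2 := k1.comp (Induced.prodMap (induced_mono (isMono_perm k π⁻¹)) Induced.id)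
  have f1 := he.sec hM hM'
  have f2 : Equi2 E (fun i => secχ g b (π i)) (fun i => -secχ g b (π i))
      (fun z : FermatPt k 3 m × FermatPt k 3 m =>
        ψ (mono hM (mono (isMono_perm k π⁻¹) z.1), mono hM' z.2)) := by
    refine ⟨fun q => ?_, fun p => ?_⟩
    · have := (f1.1 q).comp_mono (isMono_perm k π⁻¹)
      have e : (fun j => ∑ i with π⁻¹ i = j, secχ g b i) = fun i => secχ g b (π i) := by
        funext j
        have : (Finset.univ.filter (fun i => π⁻¹ i = j)) = {π j} := by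
          ext i
          rw [Finset.mem_filter, Finset.mem_singleton]
          exact ⟨fun h => by rw [← h.2]; simp, fun h => by subst h; simp⟩
        rw [this, Finset.sum_singleton]
      rwa [e] at this
    · have := f1.2 (mono (isMono_perm k π⁻¹) p)
      have e : secχ g' b' = fun i => -secχ g b (π i) := by
        funext i
        rw [h3 i, neg_neg]
      rwa [e] at this
  have := kill_opp hE k2 f2 (fun i => secχ_ne hb g _) (mono (isMono_perm k π) (pt _ x0 x1))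
    (pt _ y0 y1)
  change ψ (mono hM (mono (isMono_perm k π⁻¹) (mono (isMono_perm k π) (pt _ x0 x1))),
    mono hM' (pt _ y0 y1)) = 0 at this
  rwa [mono_perm_inv] at this

/-- Functions with equal characters on the square of the Fermat curve are antisymmetric. -/
def SwapSame (E : AddChar (ZMod m) k) : Prop :=
  ∀ (χ : Fin 3 → ZMod m) (ψ : FermatPt k 3 m × FermatPt k 3 m → k),
    Kills ((fermat k 3 m).prod (fermat k 3 m)) ψ → Equi2 E χ χ ψ → (∀ i, χ i ≠ 0) →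
    ∀ p q, ψ (p, q) + ψ (q, p) = 0

/-- Exchange of two of the coordinates. -/
theorem exchange (hK2 : SwapSame E) {ψ : FermatPt k 4 m × FermatPt k 4 m → k}
    (hk : Kills ((fermat k 4 m).prod (fermat k 4 m)) ψ) {b : Fin 4 → ZMod m}
    (he : Equi2 E b b ψ) (hb : Good b) (g : Equiv.Perm (Fin 4)) {μ : k} (hμ : μ ≠ 0)
    {p q p' q' : Fin 4 → k} (hp : p ≠ 0) (hs : ∑ i, p i ^ m = 0) (hq : q ≠ 0)
    (ht : ∑ i, q i ^ m = 0) (hp' : p' ≠ 0) (hs' : ∑ i, p' i ^ m = 0) (hq' : q' ≠ 0)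
    (ht' : ∑ i, q' i ^ m = 0) (hne : p (g 2) ^ m + p (g 3) ^ m ≠ 0)
    (h : q (g 2) ^ m + q (g 3) ^ m = μ ^ m * (p (g 2) ^ m + p (g 3) ^ m))
    (h0 : p' (g 0) = q (g 0)) (h1 : p' (g 1) = q (g 1)) (h2 : p' (g 2) = μ * p (g 2))
    (h3 : p' (g 3) = μ * p (g 3)) (h0' : q' (g 0) = p (g 0)) (h1' : q' (g 1) = p (g 1))
    (h2' : μ * q' (g 2) = q (g 2)) (h3' : μ * q' (g 3) = q (g 3)) :
    ψ (pt p hp hs, pt q hq ht) + ψ (pt p' hp' hs', pt q' hq' ht') = 0 := by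
  have hm : m ≠ 0 := NeZero.ne m
  obtain ⟨c, hc⟩ := exists_root hm (p (g 2) ^ m + p (g 3) ^ m)
  have hcm : c ^ m ≠ 0 := by rw [hc]; exact hne
  have hc0 : c ≠ 0 := by
    rintro rfl
    exact hcm (zero_pow hm)
  have hc' : (μ * c) ^ m = q (g 2) ^ m + q (g 3) ^ m := by rw [h, mul_pow, hc]
  have hcm' : (μ * c) ^ m ≠ 0 := by rw [mul_pow]; exact mul_ne_zero (pow_ne_zero _ hμ) hcm
  have hc0' : μ * c ≠ 0 := mul_ne_zero hμ hc0
  have hM := isMono_sec hcm hc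
  have hM' := isMono_sec hcm' hc'
  obtain ⟨x0, x1, x2⟩ := sec_self g hp hs hc0 hc hM
  obtain ⟨y0, y1, y2⟩ := sec_self g hq ht hc0' hc' hM'
  have e := hK2 (secχ g b) _ (hk.comp_mono hM hM') (he.sec hM hM') (secχ_ne hb g)
    (pt _ x0 x1) (pt _ y0 y1)
  beta_reduce at e
  rw [x2, y2] at e
  have z1 : mono hM (pt _ y0 y1) = pt p' hp' hs' := by
    rw [mono_pt']
    apply pt_eq_perm g 1
    · simp [secc, secσ, h0]
    · simp [secc, secσ, h1]
    · simp [secc, secσ, h2]; field_simp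
    · simp [secc, secσ, h3]; field_simp
  have z2 : mono hM' (pt _ x0 x1) = pt q' hq' ht' := by
    rw [mono_pt']
    apply pt_eq_perm g 1
    · simp [secc, secσ, h0']
    · simp [secc, secσ, h1']
    · simp [secc, secσ, ← h2']; field_simp
    · simp [secc, secσ, ← h3']; field_simp
  rw [z1, z2] at e
  exact e

/-- Functions with equal characters on the square of the Fermat surface are symmetric. -/
theorem symm_of_good (hE : IsFull E) (hK2 : SwapSame E) {ψ : FermatPt k 4 m × FermatPt k 4 m → k}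
    (hk : Kills ((fermat k 4 m).prod (fermat k 4 m)) ψ) {b : Fin 4 → ZMod m}
    (he : Equi2 E b b ψ) (hb : Good b) (P Q : FermatPt k 4 m) : ψ (P, Q) = ψ (Q, P) := by
  have hm : m ≠ 0 := NeZero.ne m
  obtain ⟨p, hp, hs, rfl⟩ := exists_pt P
  obtain ⟨q, hq, ht, rfl⟩ := exists_pt Q
  have hleft : ∀ R : FermatPt k 4 m, p 2 ^ m + p 3 ^ m = 0 → ψ (pt p hp hs, R) = 0 := fun R h =>
    line_zero hE (hk.comp (induced_left _)) (he.1 _) (1 : Equiv.Perm (Fin 4)) (Or.inl (hb.ne _))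
      (Or.inl (hb.ne _)) hp hs h
  have hright : ∀ R : FermatPt k 4 m, p 2 ^ m + p 3 ^ m = 0 → ψ (R, pt p hp hs) = 0 := fun R h =>
    line_zero hE (hk.comp (induced_right _)) (he.2 _) (1 : Equiv.Perm (Fin 4)) (Or.inl (hb.ne _))
      (Or.inl (hb.ne _)) hp hs h
  have hleft' : ∀ R : FermatPt k 4 m, q 2 ^ m + q 3 ^ m = 0 → ψ (pt q hq ht, R) = 0 := fun R h =>
    line_zero hE (hk.comp (induced_left _)) (he.1 _) (1 : Equiv.Perm (Fin 4)) (Or.inl (hb.ne _))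
      (Or.inl (hb.ne _)) hq ht h
  have hright' : ∀ R : FermatPt k 4 m, q 2 ^ m + q 3 ^ m = 0 → ψ (R, pt q hq ht) = 0 := fun R h =>
    line_zero hE (hk.comp (induced_right _)) (he.2 _) (1 : Equiv.Perm (Fin 4)) (Or.inl (hb.ne _))
      (Or.inl (hb.ne _)) hq ht h
  by_cases hp0 : p 2 ^ m + p 3 ^ m = 0
  · rw [hleft _ hp0, hright _ hp0]
  by_cases hq0 : q 2 ^ m + q 3 ^ m = 0
  · rw [hright' _ hq0, hleft' _ hq0]
  obtain ⟨μ, hμm⟩ := exists_root hm ((q 2 ^ m + q 3 ^ m) / (p 2 ^ m + p 3 ^ m))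
  have hμ : μ ≠ 0 := by
    rintro rfl
    rw [zero_pow hm] at hμm
    exact div_ne_zero hq0 hp0 hμm.symm
  have hμ1 : q 2 ^ m + q 3 ^ m = μ ^ m * (p 2 ^ m + p 3 ^ m) := by
    rw [hμm, div_mul_cancel₀ _ hp0]
  have hμ2 : p 2 ^ m + p 3 ^ m = μ⁻¹ ^ m * (q 2 ^ m + q 3 ^ m) := by
    rw [hμ1, ← mul_assoc, ← mul_pow, inv_mul_cancel₀ hμ, one_pow, one_mul]
  have hs4 : p 0 ^ m + p 1 ^ m + p 2 ^ m + p 3 ^ m = 0 := by rw [← hs, Fin.sum_univ_four]
  have ht4 : q 0 ^ m + q 1 ^ m + q 2 ^ m + q 3 ^ m = 0 := by rw [← ht, Fin.sum_univ_four]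
  have hp1 : (![q 0, q 1, μ * p 2, μ * p 3] : Fin 4 → k) ≠ 0 := by
    intro h0
    apply hp0
    have h2 : μ * p 2 = 0 := congrFun h0 2
    have h3 : μ * p 3 = 0 := congrFun h0 3
    rw [(mul_eq_zero.mp h2).resolve_left hμ, (mul_eq_zero.mp h3).resolve_left hμ, zero_pow hm,
      add_zero]
  have hs1 : ∑ i, (![q 0, q 1, μ * p 2, μ * p 3] : Fin 4 → k) i ^ m = 0 := by
    rw [Fin.sum_univ_four]
    change q 0 ^ m + q 1 ^ m + (μ * p 2) ^ m + (μ * p 3) ^ m = 0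
    rw [mul_pow, mul_pow]
    linear_combination ht4 - hμ1
  have hq1 : (![p 0, p 1, μ⁻¹ * q 2, μ⁻¹ * q 3] : Fin 4 → k) ≠ 0 := by
    intro h0
    apply hq0
    have h2 : μ⁻¹ * q 2 = 0 := congrFun h0 2
    have h3 : μ⁻¹ * q 3 = 0 := congrFun h0 3
    rw [(mul_eq_zero.mp h2).resolve_left (inv_ne_zero hμ),
      (mul_eq_zero.mp h3).resolve_left (inv_ne_zero hμ), zero_pow hm, add_zero]
  have ht1 : ∑ i, (![p 0, p 1, μ⁻¹ * q 2, μ⁻¹ * q 3] : Fin 4 → k) i ^ m = 0 := by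
    rw [Fin.sum_univ_four]
    change p 0 ^ m + p 1 ^ m + (μ⁻¹ * q 2) ^ m + (μ⁻¹ * q 3) ^ m = 0
    rw [mul_pow, mul_pow]
    linear_combination hs4 - hμ2
  have e1 := exchange hK2 hk he hb (1 : Equiv.Perm (Fin 4)) hμ hp hs hq ht hp1 hs1 hq1 ht1 hp0 hμ1
    rfl rfl rfl rfl rfl rfl (by
      change μ * (μ⁻¹ * q 2) = q 2
      rw [← mul_assoc, mul_inv_cancel₀ hμ, one_mul]) (by
      change μ * (μ⁻¹ * q 3) = q 3
      rw [← mul_assoc, mul_inv_cancel₀ hμ, one_mul])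
  obtain ⟨g, g0, g1, g2, g3⟩ : ∃ g : Equiv.Perm (Fin 4), g 0 = 2 ∧ g 1 = 3 ∧ g 2 = 0 ∧ g 3 = 1 := by
    decide
  have hp2 : (fun i => μ⁻¹ * q i) ≠ 0 := by
    obtain ⟨j, hj⟩ := Function.ne_iff.mp hq
    exact fun h => mul_ne_zero (inv_ne_zero hμ) hj (congrFun h j)
  have hq2 : (fun i => μ * p i) ≠ 0 := by
    obtain ⟨j, hj⟩ := Function.ne_iff.mp hp
    exact fun h => mul_ne_zero hμ hj (congrFun h j)
  have hs2 : ∑ i, (μ⁻¹ * q i) ^ m = 0 := by
    simp only [mul_pow, ← Finset.mul_sum]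
    rw [ht, mul_zero]
  have ht2 : ∑ i, (μ * p i) ^ m = 0 := by
    simp only [mul_pow, ← Finset.mul_sum]
    rw [hs, mul_zero]
  have e2 := exchange hK2 hk he hb g (inv_ne_zero hμ) hp1 hs1 hq1 ht1 hp2 hs2 hq2 ht2
    (by
      rw [g2, g3]
      change q 0 ^ m + q 1 ^ m ≠ 0
      intro h
      apply hq0
      linear_combination ht4 - h)
    (by
      rw [g2, g3]
      change p 0 ^ m + p 1 ^ m = μ⁻¹ ^ m * (q 0 ^ m + q 1 ^ m)
      linear_combination hs4 - hμ2 - μ⁻¹ ^ m * ht4)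
    (by rw [g0]; rfl) (by rw [g1]; rfl) (by rw [g2]; rfl) (by rw [g3]; rfl)
    (by rw [g0]; rfl) (by rw [g1]; rfl)
    (by
      rw [g2]
      change μ⁻¹ * (μ * p 0) = p 0
      rw [← mul_assoc, inv_mul_cancel₀ hμ, one_mul])
    (by
      rw [g3]
      change μ⁻¹ * (μ * p 1) = p 1
      rw [← mul_assoc, inv_mul_cancel₀ hμ, one_mul])
  have z1 : pt (fun i => μ⁻¹ * q i) hp2 hs2 = pt q hq ht := by
    rw [pt_eq_iff]
    exact ⟨μ⁻¹, fun i => rfl⟩
  have z2 : pt (fun i => μ * p i) hq2 ht2 = pt p hp hs := by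
    rw [pt_eq_iff]
    exact ⟨μ, fun i => rfl⟩
  rw [z1, z2] at e2
  linear_combination e1 - e2

end VF
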