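import Mathlib
import Pool.Agent.Helper9.NS
import Pool.Agent.Helper26.VC.Ext
import Pool.Agent.Helper83.VF.Eig
import Pool.Agent.Helper83.VF.Pair

/-!
# Eigenfunctions on the powers of the Fermat surface vanish on cycles of degree zero
-/

set_option linter.unusedSectionVars false

namespace VF

open VC VP Function
open Pool.Agent.Helper70.VF (triple Rel Good pigeon)

universe u

variable {k : Type u} [Field k] {m : ℕ} [NeZero m] {E : AddChar (ZMod m) k}
  [IsAlgClosed k] [CharZero k]

/-- Eigenfunctions on the Fermat surface with a bad character are constant. -/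
lemma const_of_bad (hE : IsFull E) {φ : FermatPt k 4 m → k} (hk : Kills (fermat k 4 m) φ)
    {b : Fin 4 → ZMod m} (he : Equi E b φ) (hb : ¬ Good b) (P Q : FermatPt k 4 m) :
    φ P = φ Q := by
  by_cases hsum : ∑ i, b i = 0
  swap
  · rw [he.sum_zero hE hsum, he.sum_zero hE hsum]
  by_cases h0 : b = 0
  · subst h0
    exact const_of_inv hE hk he P Q
  obtain ⟨i, hi⟩ := Function.ne_iff.mp h0
  by_cases hz : ∃ j, b j = 0
  · obtain ⟨j, hj⟩ := hz
    have hji : j ≠ i := by
      rintro rfl
      exact hi hj
    obtain ⟨g, rfl, rfl⟩ := exists_perm j i hji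
    have h23 : b (g 2) ≠ 0 ∨ b (g 3) ≠ 0 := by
      by_contra hcon
      push Not at hcon
      rw [sum_perm g, hj, hcon.1, hcon.2] at hsum
      apply hi
      simpa using hsum
    have hc : secχ g b 0 = 0 := hj
    rw [bad_zero hE hk he g (Or.inr hi) h23 hc, bad_zero hE hk he g (Or.inr hi) h23 hc]
  · push Not at hz
    have : ∃ i j, i ≠ j ∧ b i + b j = 0 := by
      by_contra hcon
      push Not at hcon
      exact hb ⟨by rw [← hsum, Fin.sum_univ_four], hz, hcon⟩
    obtain ⟨i, j, hij, hs⟩ := this
    obtain ⟨g, rfl, rfl⟩ := exists_perm i j hij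
    have hc : secχ g b 2 = 0 := by
      change b (g 2) + b (g 3) = 0
      rw [sum_perm g] at hsum
      linear_combination hsum - hs
    rw [bad_zero hE hk he g (Or.inl (hz _)) (Or.inl (hz _)) hc,
      bad_zero hE hk he g (Or.inl (hz _)) (Or.inl (hz _)) hc]

variable {n : ℕ} {χ : Fin n → Fin 4 → ZMod m} {Ψ : ((fermat k 4 m).pow n).Pt → k}

lemma Eig.one (h : Eig E χ Ψ) (p : ((fermat k 4 m).pow n).Pt) (i : Fin n) :
    Kills (fermat k 4 m) (fun x => Ψ (update p i x)) ∧
      Equi E (χ i) (fun x => Ψ (update p i x)) := by
  refine ⟨h.kills.comp (induced_update (fermat k 4 m) p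
    (fun K _ _ hK p => fermat_const K hK p) i), ?_⟩
  intro x y
  have := h.equi (update p i y) i x
  rw [update_self, update_idem] at this
  exact this

lemma induced_two (p : ((fermat k 4 m).pow n).Pt) (i j : Fin n) :
    Induced ((fermat k 4 m).prod (fermat k 4 m)) ((fermat k 4 m).pow n)
      (fun x => update (update p i x.1) j x.2) := by
  intro K _ _ hK c
  choose d hd using fun l => fermat_const K hK (p l)
  refine ⟨update (update d i c.1) j c.2, ?_⟩
  intro v
  change (fun l => (fermat k 4 m).eval hK (update (update d i c.1) j c.2 l) v) =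
    update (update p i ((fermat k 4 m).eval hK c.1 v)) j ((fermat k 4 m).eval hK c.2 v)
  funext l
  by_cases hj : l = j
  · subst hj; simp
  · rw [update_of_ne hj, update_of_ne hj]
    by_cases hi : l = i
    · subst hi; simp
    · rw [update_of_ne hi, update_of_ne hi]
      exact hd l v

lemma Eig.two (h : Eig E χ Ψ) (p : ((fermat k 4 m).pow n).Pt) {i j : Fin n} (hij : i ≠ j) :
    Kills ((fermat k 4 m).prod (fermat k 4 m)) (fun x => Ψ (update (update p i x.1) j x.2)) ∧
      Equi2 E (χ i) (χ j) (fun x => Ψ (update (update p i x.1) j x.2)) := by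
  refine ⟨h.kills.comp (induced_two p i j), fun q => ?_, fun q => ?_⟩
  · have := (h.one (update p j q) i).2
    intro x y
    have := this x y
    beta_reduce at this ⊢
    rw [update_comm hij.symm, update_comm hij.symm] at this
    exact this
  · exact (h.one (update p i q) j).2

/-- Either the eigenfunction is zero or it does not depend on one of the points. -/
theorem eig_zero (hE : IsFull E) (hK2 : SwapSame E) (hn : (m - 1).choose 3 < n)
    (h : Eig E χ Ψ) : (∀ p, Ψ p = 0) ∨ ∃ i, ∀ p x y, Ψ (update p i x) = Ψ (update p i y) := by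
  by_cases hgood : ∀ i, Good (χ i)
  · left
    intro p
    obtain ⟨i, j, hij, hr⟩ := pigeon n hn χ hgood
    have ep : update (update p i (p i)) j (p j) = p := by
      rw [update_eq_self, update_eq_self]
    rcases hr with hr | hr
    · -- equal characters
      have h2 := (h.two p hij).2
      rw [← hr] at h2
      have h3 := symm_of_good hE hK2 (h.two p hij).1 h2 (hgood i) (p i) (p j)
      beta_reduce at h3
      have h4 := h.alt i j hij hr p
      have e : (fun l => p (Equiv.swap i j l)) = update (update p i (p j)) j (p i) := by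
        funext l
        by_cases hj : l = j
        · subst hj; rw [update_self, Equiv.swap_apply_right]
        · rw [update_of_ne hj]
          by_cases hi : l = i
          · subst hi; rw [update_self, Equiv.swap_apply_left]
          · rw [update_of_ne hi, Equiv.swap_apply_of_ne_of_ne hi hj]
      rw [e] at h4
      change Ψ (update (update p i (p i)) j (p j)) = Ψ (update (update p i (p j)) j (p i)) at h3
      rw [ep, h4] at h3
      have h5 : (2 : k) * Ψ p = 0 := by linear_combination h3
      exact (mul_eq_zero.mp h5).resolve_left two_ne_zero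
    · have h2 := opp_zero hE (h.two p hij).1 (h.two p hij).2 (hgood i) (hgood j) hr (p i) (p j)
      change Ψ (update (update p i (p i)) j (p j)) = 0 at h2
      rwa [ep] at h2
  · right
    push Not at hgood
    obtain ⟨i, hi⟩ := hgood
    exact ⟨i, fun p x y => const_of_bad hE (h.one p i).1 (h.one p i).2 hi x y⟩

/-- A function independent of one of the points vanishes on exterior products in which the
corresponding factor has degree zero. -/
lemma lin_ext_zero {α : Type u} {Φ : (Fin n → α) → k} {i : Fin n}
    (h : ∀ p x y, Φ (update p i x) = Φ (update p i y)) (a : Fin n → (α →₀ ℤ))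
    (ha : (a i).sum (fun _ z => z) = 0) : Finsupp.linearCombination ℤ Φ (ext' a) = 0 := by
  classical
  by_cases hemp : Nonempty α
  swap
  · rw [not_nonempty_iff] at hemp
    have : IsEmpty (Fin n → α) := ⟨fun p => hemp.false (p i)⟩
    have h0 : ext' a = 0 := Subsingleton.elim _ _
    rw [h0, map_zero]
  obtain ⟨o⟩ := hemp
  let L : MultilinearMap ℤ (fun _ : Fin n => (α →₀ ℤ)) k :=
    (Finsupp.linearCombination ℤ Φ).compMultilinearMap (extM α n)
  let D : (α →₀ ℤ) →ₗ[ℤ] (α →₀ ℤ) := Finsupp.linearCombination ℤ (fun _ => Finsupp.single o 1)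
  let f : ∀ _ : Fin n, (α →₀ ℤ) →ₗ[ℤ] (α →₀ ℤ) := fun j => if j = i then D else LinearMap.id
  have hL : L = L.compLinearMap f := by
    apply Module.Basis.ext_multilinear (fun _ => Finsupp.basisSingleOne)
    intro v
    simp only [Finsupp.coe_basisSingleOne]
    rw [MultilinearMap.compLinearMap_apply]
    have e1 : ∀ j, f j (Finsupp.single (v j) 1) = Finsupp.single (update v i o j) (1 : ℤ) := by
      intro j
      by_cases hj : j = i
      · subst hj
        simp [f, D]
      · simp [f, hj]
    have e2 : (fun j => f j (Finsupp.single (v j) 1)) =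
        fun j => Finsupp.single (update v i o j) (1 : ℤ) := funext e1
    rw [e2]
    change Finsupp.linearCombination ℤ Φ (ext' fun j => Finsupp.single (v j) 1) =
      Finsupp.linearCombination ℤ Φ (ext' fun j => Finsupp.single (update v i o j) 1)
    rw [ext'_single, ext'_single, Finsupp.linearCombination_single,
      Finsupp.linearCombination_single, one_smul, one_smul, h v o (v i), update_eq_self]
  change L a = 0
  rw [hL, MultilinearMap.compLinearMap_apply]
  apply MultilinearMap.map_coord_zero _ i
  simp only [f, if_true, D]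
  rw [Finsupp.linearCombination_apply, Finsupp.sum, ← Finset.sum_smul]
  have : ∑ x ∈ (a i).support, (a i) x = 0 := ha
  rw [this, zero_smul]

/-- Eigenfunctions vanish on the exterior products of cycles of degree zero. -/
theorem eig_kill (hE : IsFull E) (hK2 : SwapSame E) (hn : (m - 1).choose 3 < n)
    (h : Eig E χ Ψ) (a : Fin n → (fermat k 4 m).Cycles)
    (ha : ∀ i, (a i).sum (fun _ z => z) = 0) :
    Finsupp.linearCombination ℤ Ψ (extProd a) = 0 := by
  change Finsupp.linearCombination ℤ Ψ (ext' a) = 0
  rcases eig_zero hE hK2 hn h with h0 | ⟨i, hi⟩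
  · have : Ψ = fun _ => 0 := funext h0
    rw [this, Finsupp.linearCombination_apply]
    simp
  · exact lin_ext_zero hi a (ha i)

end VF
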