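import Mathlib
import Pool.Agent.Helper83.VF.Opp

/-!
# Equal characters on the square of a Fermat curve
-/

set_option linter.unusedSectionVars false

namespace VF

open VC VP Function Polynomial

universe u

variable {k : Type u} [Field k] {m : ℕ} [NeZero m] {E : AddChar (ZMod m) k}
  [IsAlgClosed k] [CharZero k]

/-- The products of the coordinates of two points determine the points up to exchange. -/
lemma prop_of_prod {x x' s s' : Fin 3 → k} {l : k} (hl : l ≠ 0)
    (hx : ∑ i, x i = 0) (hx' : ∑ i, x' i = 0) (hs : ∑ i, s i = 0) (hs' : ∑ i, s' i = 0)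
    (h : ∀ i, x i * x' i = l * (s i * s' i)) :
    (∀ i j, x i * s j = x j * s i) ∨ (∀ i j, x i * s' j = x j * s' i) := by
  rw [Fin.sum_univ_three] at hx hx' hs hs'
  have key : (x 0 * s 1 - x 1 * s 0) * (x 0 * s' 1 - x 1 * s' 0) = 0 := by
    apply mul_left_cancel₀ hl
    have e2 : x 2 = -x 0 - x 1 := by linear_combination hx
    have e2' : x' 2 = -x' 0 - x' 1 := by linear_combination hx'
    have f2 : s 2 = -s 0 - s 1 := by linear_combination hs
    have f2' : s' 2 = -s' 0 - s' 1 := by linear_combination hs'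
    have h0 := h 0
    have h1 := h 1
    have h2 := h 2
    rw [e2, e2', f2, f2'] at h2
    linear_combination (-(x 0 * x 1) - x 1 * x 1) * h0 + (-(x 0 * x 1) - x 0 * x 0) * h1 +
      x 0 * x 1 * h2
  have fin : ∀ t : Fin 3 → k, t 0 + t 1 + t 2 = 0 → x 0 * t 1 - x 1 * t 0 = 0 →
      ∀ i j, x i * t j = x j * t i := by
    intro t ht h01 i j
    have e2 : x 2 = -x 0 - x 1 := by linear_combination hx
    have f2 : t 2 = -t 0 - t 1 := by linear_combination ht
    fin_cases i <;> fin_cases j <;> simp only [Fin.zero_eta, Fin.mk_one, Fin.reduceFinMk, e2, f2]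
    · linear_combination h01
    · linear_combination -h01
    · linear_combination -h01
    · linear_combination h01
    · linear_combination h01
    · linear_combination -h01
  rcases mul_eq_zero.mp key with h0 | h0
  · exact Or.inl (fin s hs h0)
  · exact Or.inr (fin s' hs' h0)

/-- A nonzero solution of the equation has at most one zero coordinate. -/
lemma two_zero {m : ℕ} (hm : m ≠ 0) {u : Fin 3 → k} (hu : u ≠ 0) (h : ∑ i, u i ^ m = 0)
    {i j : Fin 3} (hij : i ≠ j) (hi : u i = 0) (hj : u j = 0) : False := by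
  apply hu
  have key : ∀ l, u l = 0 := by
    intro l
    by_cases hli : l = i
    · rw [hli, hi]
    by_cases hlj : l = j
    · rw [hlj, hj]
    rw [← Finset.add_sum_erase _ _ (Finset.mem_univ l)] at h
    have h0 : ∑ t ∈ Finset.univ.erase l, u t ^ m = 0 := by
      apply Finset.sum_eq_zero
      intro t ht
      have htl := Finset.ne_of_mem_erase ht
      have : t = i ∨ t = j := by omega
      rcases this with rfl | rfl
      · rw [hi, zero_pow hm]
      · rw [hj, zero_pow hm]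
    rw [h0, add_zero] at h
    exact (pow_eq_zero_iff hm).mp h
  exact funext key

/-- Two points whose coordinates have prescribed products. -/
lemma prod_eq (hE : IsFull E) {χ : Fin 3 → ZMod m} {T : FermatPt k 3 m × FermatPt k 3 m → k}
    (he : Equi2 E χ χ T) (hsym : ∀ p q, T (p, q) = T (q, p)) {u u' b b' : Fin 3 → k} {κ : k}
    (hκ : κ ≠ 0) (hu : u ≠ 0) (hs : ∑ i, u i ^ m = 0) (hu' : u' ≠ 0) (hs' : ∑ i, u' i ^ m = 0)
    (hb : b ≠ 0) (ht : ∑ i, b i ^ m = 0) (hb' : b' ≠ 0) (ht' : ∑ i, b' i ^ m = 0)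
    (h0 : ∀ i, u i ≠ 0) (h0' : ∀ i, u' i ≠ 0) (h : ∀ i, b i * b' i = κ * (u i * u' i)) :
    T (pt b hb ht, pt b' hb' ht') = T (pt u hu hs, pt u' hu' hs') := by
  have hm : m ≠ 0 := NeZero.ne m
  have hbne : ∀ i, b i ≠ 0 := by
    intro i hi
    have := h i
    rw [hi, zero_mul] at this
    exact mul_ne_zero hκ (mul_ne_zero (h0 i) (h0' i)) this.symm
  have key : ∀ (w w' : Fin 3 → k) (hw : w ≠ 0) (hw' : w' ≠ 0) (hr : ∑ i, w i ^ m = 0)
      (hr' : ∑ i, w' i ^ m = 0), (∀ i, w i ≠ 0) → (∀ i, b i * b' i = κ * (w i * w' i)) →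
      (∀ i j, b i ^ m * w j ^ m = b j ^ m * w i ^ m) →
      T (pt b hb ht, pt b' hb' ht') = T (pt w hw hr, pt w' hw' hr') := by
    intro w w' hw hw' hr hr' hw0 h2 h3
    obtain ⟨c, x, hc, hx⟩ := exists_tw (a := w) (b := b) hE (l := b 0 ^ m / w 0 ^ m)
      (div_ne_zero (pow_ne_zero _ (hbne 0)) (pow_ne_zero _ (hw0 0))) (fun i => by
        have := h3 i 0
        have hw00 := pow_ne_zero m (hw0 0)
        field_simp
        linear_combination this)
    have t1 : pt b hb ht = tw E x (pt w hw hr) := tw_pt c hx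
    have t2 : pt b' hb' ht' = tw E (-x) (pt w' hw' hr') := by
      apply tw_pt (κ / c)
      intro i
      have h4 := h2 i
      rw [hx i] at h4
      have hEx : E (x i) ≠ 0 := char_ne_zero E _
      have hEn : E ((-x) i) = (E (x i))⁻¹ := by
        rw [Pi.neg_apply, AddChar.map_neg_eq_inv]
      rw [hEn]
      apply mul_left_cancel₀ (mul_ne_zero hc (mul_ne_zero hEx (hw0 i)))
      rw [h4]
      field_simp
    rw [t1, t2, he.both, ← mul_assoc, ← AddChar.map_add_eq_mul]
    have : ∑ i, χ i * x i + ∑ i, χ i * (-x) i = 0 := by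
      rw [← Finset.sum_add_distrib]
      apply Finset.sum_eq_zero
      intro i _
      rw [Pi.neg_apply]; ring
    rw [this, AddChar.map_zero_eq_one, one_mul]
  rcases prop_of_prod (x := fun i => b i ^ m) (x' := fun i => b' i ^ m) (s := fun i => u i ^ m)
    (s' := fun i => u' i ^ m) (pow_ne_zero m hκ) ht ht' hs hs' (fun i => by
      rw [← mul_pow, ← mul_pow, ← mul_pow, h i]) with h1 | h1
  · exact key u u' hu hu' hs hs' h0 h h1
  · rw [hsym (pt u hu hs)]
    exact key u' u hu' hu hs' hs h0' (fun i => by rw [h i]; ring) h1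

lemma exists_swap_field {m : ℕ} (hm : m ≠ 0) (w : Fin 3 → k[X]) (hw : w 1 ≠ 0) :
    ∃ (K : Type u) (_ : Field K) (_ : Algebra k K) (τ z U₀ U₂ : K), IsFunctionField k K ∧
      Transcendental k τ ∧ aeval τ (w 1) ^ m * z ^ 2 +
        (aeval τ (w 0) ^ m + aeval τ (w 1) ^ m - aeval τ (w 2) ^ m) * z + aeval τ (w 0) ^ m = 0 ∧
      U₀ ^ m = z ∧ U₂ ^ m = -1 - z := by
  set W : Fin 3 → RatFunc k := fun i => aeval (RatFunc.X : RatFunc k) (w i) ^ m with hW
  have hW1 : W 1 ≠ 0 := pow_ne_zero _ (aeval_ne_zero transcendental_ratX hw)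
  obtain ⟨K₁, _, _, _, _, hK₁, hsp⟩ := exists_splits (ff_ratFunc (k := k))
    (C (W 1) * X ^ 2 + C (W 0 + W 1 - W 2) * X + C (W 0))
  obtain ⟨z, hz⟩ := hsp.exists_eval_eq_zero (by
    rw [Polynomial.degree_map, degree_quadratic hW1]
    exact two_ne_zero)
  obtain ⟨K, _, _, _, _, y, hK, hy⟩ := exists_roots hK₁ hm (![z, -1 - z] : Fin 2 → K₁)
  have hc : ∀ i, algebraMap K₁ K (algebraMap (RatFunc k) K₁ (W i)) =
      aeval (algebraMap K₁ K (algebraMap (RatFunc k) K₁ RatFunc.X)) (w i) ^ m := by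
    intro i
    rw [aeval_algebraMap_apply, aeval_algebraMap_apply, ← map_pow, ← map_pow]
  refine ⟨K, inferInstance, inferInstance,
    algebraMap K₁ K (algebraMap (RatFunc k) K₁ RatFunc.X), algebraMap K₁ K z, y 0, y 1, hK, ?_, ?_,
    hy 0, ?_⟩
  · exact (transcendental_algebraMap_iff (algebraMap K₁ K).injective).mpr
      ((transcendental_algebraMap_iff (algebraMap (RatFunc k) K₁).injective).mpr
        transcendental_ratX)
  · rw [← hc, ← hc, ← hc]
    have h1 := congrArg (algebraMap K₁ K) hz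
    simp only [Polynomial.eval_map, eval₂_add, eval₂_sub, eval₂_mul, eval₂_C, eval₂_pow, eval₂_X,
      map_add, map_mul, map_pow, map_sub, map_zero] at h1
    linear_combination h1
  · rw [hy 1]
    change algebraMap K₁ K (-1 - z) = _
    rw [map_sub, map_neg, map_one]

lemma IsRes.inv {K : Type u} [Field K] [Algebra k K] {v : Place k K} {x : K} {c : k}
    (hK : IsFunctionField k K) (h : IsRes v x c) (hc : c ≠ 0) : IsRes v x⁻¹ c⁻¹ := by
  obtain ⟨hx, hx'⟩ := h.inv_mem hc
  obtain ⟨e, he⟩ := exists_res hK hx'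
  have h1 := h.mul he
  rw [mul_inv_cancel₀ hx] at h1
  have h2 := h1.unique isRes_one
  rwa [eq_inv_of_mul_eq_one_right h2] at he

lemma swap_pair (hE : IsFull E) {χ : Fin 3 → ZMod m} {T : FermatPt k 3 m × FermatPt k 3 m → k}
    (hk : Kills ((fermat k 3 m).prod (fermat k 3 m)) T)
    (he : Equi2 E χ χ T) (hχ : ∀ i, χ i ≠ 0) (hsym : ∀ p q, T (p, q) = T (q, p))
    {u u' : Fin 3 → k} (hu : u ≠ 0) (hs : ∑ i, u i ^ m = 0) (hu' : u' ≠ 0)
    (hs' : ∑ i, u' i ^ m = 0) (h0 : ∀ i, u i ≠ 0) (h0' : ∀ i, u' i ≠ 0) :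
    T (pt u hu hs, pt u' hu' hs') = 0 := by
  have hm : m ≠ 0 := NeZero.ne m
  let w : Fin 3 → k[X] := fun i => lin (u i * u' i) ((![0, 1, 1] : Fin 3 → k) i)
  have w0 : ∀ i, (w i).eval 0 = u i * u' i := fun i => lin_zero _ _
  have w1 : ∀ i, (w i).eval 1 = (![0, 1, 1] : Fin 3 → k) i := fun i => lin_one _ _
  have hw : ∀ i, w i ≠ 0 := fun i => poly_ne_zero (a := 0) (by
    rw [w0]; exact mul_ne_zero (h0 i) (h0' i))
  obtain ⟨K, _, _, τ, z, U₀, U₂, hK, hτ, hz, hU₀, hU₂⟩ := exists_swap_field hm w (hw 1)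
  have ha : ∀ i, aeval τ (w i) ≠ 0 := fun i => aeval_ne_zero hτ (hw i)
  have hz0 : z ≠ 0 := by
    rintro rfl
    apply pow_ne_zero m (ha 0)
    linear_combination hz
  have hz1 : -1 - z ≠ 0 := by
    intro h
    have hz' : z = -1 := by linear_combination -h
    rw [hz'] at hz
    apply pow_ne_zero m (ha 2)
    linear_combination hz
  have hU₀0 : U₀ ≠ 0 := by
    rintro rfl
    rw [zero_pow hm] at hU₀
    exact hz0 hU₀.symm
  have hU₂0 : U₂ ≠ 0 := by
    rintro rfl
    rw [zero_pow hm] at hU₂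
    exact hz1 hU₂.symm
  set U : Fin 3 → K := ![U₀, 1, U₂] with hUd
  have hUi : ∀ i, U i ≠ 0 := by
    intro i
    fin_cases i
    · exact hU₀0
    · exact one_ne_zero
    · exact hU₂0
  have hU0 : U ≠ 0 := fun h => hUi 0 (congrFun h 0)
  have hU0' : (fun i => aeval τ (w i) / U i) ≠ 0 := fun h =>
    div_ne_zero (ha 0) (hUi 0) (congrFun h 0)
  have hUm : ∑ i, U i ^ m = 0 := by
    rw [Fin.sum_univ_three]
    change U₀ ^ m + 1 ^ m + U₂ ^ m = 0
    rw [hU₀, hU₂, one_pow]; ring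
  have hUm' : ∑ i, (aeval τ (w i) / U i) ^ m = 0 := by
    rw [Fin.sum_univ_three]
    change (aeval τ (w 0) / U₀) ^ m + (aeval τ (w 1) / 1) ^ m + (aeval τ (w 2) / U₂) ^ m = 0
    rw [div_pow, div_pow, div_pow, hU₀, hU₂, one_pow, div_one]
    field_simp
    linear_combination -hz
  -- values
  have hval : ∀ (d : k), (∃ i, (w i).eval d ≠ 0) → ∀ v : Place k K, IsRes v τ d →
      ∃ (b b' : Fin 3 → k) (κ : k) (hb : b ≠ 0) (ht : ∑ i, b i ^ m = 0) (hb' : b' ≠ 0)
        (ht' : ∑ i, b' i ^ m = 0), κ ≠ 0 ∧ (∀ i, b i * b' i = κ * (w i).eval d) ∧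
        ((fermat k 3 m).prod (fermat k 3 m)).eval hK
          (pt U hU0 hUm, pt (fun i => aeval τ (w i) / U i) hU0' hUm') v =
          (pt b hb ht, pt b' hb' ht') := by
    intro d hd v hv
    obtain ⟨A, hA, hAm, b, hb, ht, e1, e2, e3⟩ := exists_coord hK v
      (pt U hU0 hUm : FermatPt K 3 m)
    obtain ⟨A', hA', hAm', b', hb', ht', e1', e2', e3'⟩ := exists_coord hK v
      (pt (fun i => aeval τ (w i) / U i) hU0' hUm' : FermatPt K 3 m)
    obtain ⟨c, hc⟩ := pt_eq_iff.mp e1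
    obtain ⟨c', hc'⟩ := pt_eq_iff.mp e1'
    have hprod : ∀ i, c * c' * (A i * A' i) = aeval τ (w i) := by
      intro i
      have h1 := hc i
      have h2 := hc' i
      have : c * A i * (c' * A' i) = aeval τ (w i) := by
        rw [h1, h2, mul_div_cancel₀ _ (hUi i)]
      rw [← this]; ring
    have hcc : c * c' ≠ 0 := by
      intro h
      apply ha 0
      rw [← hprod 0, h, zero_mul]
    obtain ⟨i, hi⟩ := hd
    have r1 : IsRes v (A i * A' i * (aeval τ (w i))⁻¹) (b i * b' i * ((w i).eval d)⁻¹) :=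
      ((e3 i).mul (e3' i)).mul ((hv.poly (p := w i)).inv hK hi)
    have hμ : A i * A' i * (aeval τ (w i))⁻¹ = (c * c')⁻¹ := by
      have hai := ha i
      rw [← hprod i] at hai ⊢
      have hAA : A i * A' i ≠ 0 := right_ne_zero_of_mul hai
      rw [mul_inv, mul_comm (c * c')⁻¹, ← mul_assoc, mul_inv_cancel₀ hAA, one_mul]
    rw [hμ] at r1
    have hbb : ∀ j, b j * b' j = b i * b' i * ((w i).eval d)⁻¹ * (w j).eval d := by
      intro j
      have r2 : IsRes v ((c * c')⁻¹ * aeval τ (w j))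
          (b i * b' i * ((w i).eval d)⁻¹ * (w j).eval d) := r1.mul hv.poly
      have r3 : (c * c')⁻¹ * aeval τ (w j) = A j * A' j := by
        rw [← hprod j, ← mul_assoc, inv_mul_cancel₀ hcc, one_mul]
      rw [r3] at r2
      exact ((e3 j).mul (e3' j)).unique r2
    refine ⟨b, b', b i * b' i * ((w i).eval d)⁻¹, hb, ht, hb', ht', ?_, hbb, Prod.ext e2 e2'⟩
    intro h
    rw [h] at hbb
    simp only [zero_mul, mul_eq_zero] at hbb
    rcases hbb 0 with z0 | z0 <;> rcases hbb 1 with z1 | z1 <;> rcases hbb 2 with z2 | z2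
    · exact two_zero hm hb ht (i := 0) (j := 1) (by decide) z0 z1
    · exact two_zero hm hb ht (i := 0) (j := 1) (by decide) z0 z1
    · exact two_zero hm hb ht (i := 0) (j := 2) (by decide) z0 z2
    · exact two_zero hm hb' ht' (i := 1) (j := 2) (by decide) z1 z2
    · exact two_zero hm hb ht (i := 1) (j := 2) (by decide) z1 z2
    · exact two_zero hm hb' ht' (i := 0) (j := 2) (by decide) z0 z2
    · exact two_zero hm hb' ht' (i := 0) (j := 1) (by decide) z0 z1
    · exact two_zero hm hb' ht' (i := 0) (j := 1) (by decide) z0 z1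
  refine path hk hK (pt U hU0 hUm, pt (fun i => aeval τ (w i) / U i) hU0' hUm') hτ
    (zero_ne_one (α := k)) (fun v hv => ?_) (fun v hv => ?_)
  · obtain ⟨b, b', κ, hb, ht, hb', ht', hκ, h1, h2⟩ := hval 0
      ⟨0, by rw [w0]; exact mul_ne_zero (h0 0) (h0' 0)⟩ v hv
    rw [h2]
    exact prod_eq hE he hsym hκ hu hs hu' hs' hb ht hb' ht' h0 h0' (fun i => by rw [h1 i, w0])
  · obtain ⟨b, b', κ, hb, ht, hb', ht', hκ, h1, h2⟩ := hval 1
      ⟨1, by rw [w1]; exact one_ne_zero⟩ v hv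
    rw [h2]
    have h3 := h1 0
    rw [w1] at h3
    change b 0 * b' 0 = κ * 0 at h3
    rw [mul_zero, mul_eq_zero] at h3
    rcases h3 with h3 | h3
    · exact (he.1 _).zero_coord hE (hχ 0) hb ht h3
    · exact (he.2 _).zero_coord hE (hχ 0) hb' ht' h3

/-- **Equal characters.** Eigenfunctions on `C × C` with equal characters are antisymmetric. -/
theorem swap_same (hE : IsFull E) {χ : Fin 3 → ZMod m} {ψ : FermatPt k 3 m × FermatPt k 3 m → k}
    (hk : Kills ((fermat k 3 m).prod (fermat k 3 m)) ψ)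
    (he : Equi2 E χ χ ψ) (hχ : ∀ i, χ i ≠ 0) (p q : FermatPt k 3 m) :
    ψ (p, q) + ψ (q, p) = 0 := by
  obtain ⟨u, hu, h, rfl⟩ := exists_pt p
  obtain ⟨u', hu', h', rfl⟩ := exists_pt q
  by_cases hz : ∃ i, u i = 0
  · obtain ⟨i, hi⟩ := hz
    have e1 := (he.1 (pt u' hu' h')).zero_coord hE (hχ i) hu h hi
    have e2 := (he.2 (pt u' hu' h')).zero_coord hE (hχ i) hu h hi
    beta_reduce at e1 e2
    rw [e1, e2, add_zero]
  by_cases hz' : ∃ i, u' i = 0
  · obtain ⟨i, hi⟩ := hz'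
    have e1 := (he.1 (pt u hu h)).zero_coord hE (hχ i) hu' h' hi
    have e2 := (he.2 (pt u hu h)).zero_coord hE (hχ i) hu' h' hi
    beta_reduce at e1 e2
    rw [e1, e2, add_zero]
  push Not at hz hz'
  exact swap_pair (T := fun z => ψ (z.1, z.2) + ψ (z.2, z.1)) hE
    (hk.add (hk.comp Induced.swap))
    ⟨fun q x p => by
      have e1 := he.1 q x p
      have e2 := he.2 q x p
      beta_reduce at e1 e2 ⊢
      rw [e1, e2]; ring, fun p x q => by
      have e1 := he.1 p x q
      have e2 := he.2 p x q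
      beta_reduce at e1 e2 ⊢
      rw [e1, e2]; ring⟩ hχ (fun p q => add_comm _ _) hu h hu' h' hz hz'

end VF
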